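import Mathlib

/-!
# Independent splittings: the abstract Hilbert space theorem

`K` is a real Hilbert space of centred square integrable random variables, `φ X = E exp(iX)`.
-/

set_option autoImplicit false
set_option linter.unusedSectionVars false
open Filter Topology

namespace Pool.Agent.KS6_61.IS

noncomputable section

variable {K : Type*} [NormedAddCommGroup K] [InnerProductSpace ℝ K] [CompleteSpace K]

/-- `φ` is a differentiable function with the second order behaviour of the characteristic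
functional of centred variables -/
structure CF (φ : K → ℂ) (φ' : K → K →L[ℝ] ℂ) : Prop where
  deriv : ∀ X, HasFDerivAt φ (φ' X) X
  zero : φ 0 = 1
  sec : ∀ X h, Tendsto (fun ε : ℝ => ((ε⁻¹ : ℝ) : ℂ) * φ' (ε • X) h) (𝓝[≠] 0)
    (𝓝 (-((inner ℝ X h : ℝ) : ℂ)))

/-- the Gaussian directions -/
def Gd (φ : K → ℂ) (φ' : K → K →L[ℝ] ℂ) : Submodule ℝ K where
  carrier := {Z | ∀ Y, φ' Y Z = -((inner ℝ Z Y : ℝ) : ℂ) * φ Y}
  add_mem' := by
    intro a b ha hb Y
    rw [map_add, ha Y, hb Y, inner_add_left]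
    push_cast
    ring
  zero_mem' := by
    intro Y
    rw [map_zero, inner_zero_left]
    simp
  smul_mem' := by
    intro c a ha Y
    rw [map_smul, ha Y, inner_smul_left]
    simp
    ring

variable {φ : K → ℂ} {φ' : K → K →L[ℝ] ℂ}

lemma mem_Gd {Z : K} : Z ∈ Gd φ φ' ↔ ∀ Y, φ' Y Z = -((inner ℝ Z Y : ℝ) : ℂ) * φ Y := Iff.rfl

lemma Gd_closed : IsClosed (Gd φ φ' : Set K) := by
  have : (Gd φ φ' : Set K) = ⋂ Y, {Z | φ' Y Z = -((inner ℝ Z Y : ℝ) : ℂ) * φ Y} := by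
    ext Z
    simp only [SetLike.mem_coe, mem_Gd, Set.mem_iInter]
    rfl
  rw [this]
  refine isClosed_iInter fun Y => isClosed_eq (φ' Y).continuous ?_
  fun_prop

/-- derivative along a line -/
lemma CF.line (h : CF φ φ') (Y Z : K) (s : ℝ) :
    HasDerivAt (fun s : ℝ => φ (Y + s • Z)) (φ' (Y + s • Z) Z) s := by
  have h1 : HasDerivAt (fun s : ℝ => Y + s • Z) ((1 : ℝ) • Z) s :=
    ((hasDerivAt_id s).smul_const Z).const_add Y
  have h2 := (h.deriv (Y + s • Z)).comp_hasDerivAt s h1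
  rw [one_smul] at h2
  exact h2

lemma CF.d0 (h : CF φ φ') (k : K) : φ' 0 k = 0 := by
  have h1 := h.sec 0 k
  rw [inner_zero_left] at h1
  simp only [smul_zero, Complex.ofReal_zero, neg_zero] at h1
  by_contra hne
  have h2 : Tendsto (fun ε : ℝ => (ε : ℂ) * (((ε⁻¹ : ℝ) : ℂ) * φ' 0 k)) (𝓝[≠] 0)
      (𝓝 ((0 : ℝ) * 0)) := by
    refine Tendsto.mul ?_ h1
    exact (Complex.continuous_ofReal.tendsto 0).mono_left nhdsWithin_le_nhds
  have h3 : Tendsto (fun _ : ℝ => φ' 0 k) (𝓝[≠] (0 : ℝ)) (𝓝 ((0 : ℝ) * 0)) := by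
    refine h2.congr' ?_
    filter_upwards [self_mem_nhdsWithin] with ε hε
    have : (ε : ℂ) ≠ 0 := Complex.ofReal_ne_zero.2 hε
    push_cast
    field_simp
  have h4 := tendsto_nhds_unique h3 tendsto_const_nhds
  apply hne
  rw [← h4]; simp

/-- the characteristic functional along a Gaussian direction -/
theorem CF.gauss (h : CF φ φ') {Z : K} (hZ : Z ∈ Gd φ φ') (Y : K) :
    φ (Y + Z) = φ Y * Complex.exp (-((inner ℝ Z Y : ℝ) : ℂ) - ((‖Z‖ ^ 2 : ℝ) : ℂ) / 2) := by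
  obtain ⟨a, ha⟩ : ∃ a : ℝ, a = inner ℝ Z Y := ⟨_, rfl⟩
  obtain ⟨b, hb⟩ : ∃ b : ℝ, b = ‖Z‖ ^ 2 := ⟨_, rfl⟩
  have key : ∀ s : ℝ, HasDerivAt (fun s : ℝ => φ (Y + s • Z) *
      Complex.exp ((s : ℂ) * a + (s : ℂ) ^ 2 * b / 2)) 0 s := by
    intro s
    have h1 := h.line Y Z s
    rw [hZ, inner_add_right, inner_smul_right, real_inner_self_eq_norm_sq, ← ha, ← hb] at h1
    have h0 : HasDerivAt (fun s : ℝ => (s : ℂ)) 1 s := Complex.ofRealCLM.hasDerivAt
    have h2 : HasDerivAt (fun s : ℝ => (s : ℂ) * a + (s : ℂ) ^ 2 * b / 2)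
        (1 * a + (2 * (s : ℂ) ^ (2 - 1) * 1) * b / 2) s :=
      (h0.mul_const (a : ℂ)).add (((h0.pow 2).mul_const (b : ℂ)).div_const 2)
    have h3 := h1.mul h2.cexp
    refine h3.congr_deriv ?_
    push_cast
    ring
  have h5 := is_const_of_deriv_eq_zero (fun s => (key s).differentiableAt)
    (fun s => (key s).deriv) 1 0
  simp only [one_smul, zero_smul, add_zero, Complex.ofReal_one, Complex.ofReal_zero, one_mul,
    one_pow, zero_mul, ne_eq, OfNat.ofNat_ne_zero, not_false_eq_true, zero_pow, zero_div,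
    Complex.exp_zero, mul_one] at h5
  rw [← ha, ← hb, ← h5, mul_assoc, ← Complex.exp_add]
  have : (a : ℂ) + b / 2 + (-(a : ℂ) - b / 2) = 0 := by ring
  rw [this, Complex.exp_zero, mul_one]

/-! ### One parameter groups -/

/-- a strongly differentiable one parameter group of isometries which preserves `φ` -/
structure Flow (φ : K → ℂ) (V : ℝ → K →ₗᵢ[ℝ] K) (D : K → K) : Prop where
  zero : ∀ X, V 0 X = X
  add : ∀ s t X, V (s + t) X = V s (V t X)
  inv : ∀ t X, φ (V t X) = φ X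
  der : ∀ X, HasDerivAt (fun t : ℝ => V t X) (D X) 0

variable {V : ℝ → K →ₗᵢ[ℝ] K} {D : K → K}

lemma Flow.neg (F : Flow φ V D) (t : ℝ) (X : K) : V (-t) (V t X) = X := by
  rw [← F.add, neg_add_cancel, F.zero]

lemma Flow.neg' (F : Flow φ V D) (t : ℝ) (X : K) : V t (V (-t) X) = X := by
  rw [← F.add, add_neg_cancel, F.zero]

lemma Flow.derAt (F : Flow φ V D) (X : K) (t : ℝ) :
    HasDerivAt (fun t : ℝ => V t X) (D (V t X)) t := by
  have h1 : HasDerivAt (fun s : ℝ => V s (V t X)) (D (V t X)) (t - t) := by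
    rw [sub_self]
    exact F.der _
  have h2 := h1.comp_sub_const t t
  refine h2.congr_of_eventuallyEq (Eventually.of_forall fun s => ?_)
  show V s X = V (s - t) (V t X)
  rw [← F.add, sub_add_cancel]

lemma Flow.D_add (F : Flow φ V D) (X Y : K) : D (X + Y) = D X + D Y := by
  have h1 := F.der (X + Y)
  have h2 := (F.der X).add (F.der Y)
  refine h1.unique (h2.congr_of_eventuallyEq (Eventually.of_forall fun s => ?_))
  show V s (X + Y) = V s X + V s Y
  rw [map_add]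

lemma Flow.D_smul (F : Flow φ V D) (c : ℝ) (X : K) : D (c • X) = c • D X := by
  have h1 := F.der (c • X)
  have h2 := (F.der X).const_smul c
  refine h1.unique (h2.congr_of_eventuallyEq (Eventually.of_forall fun s => ?_))
  show V s (c • X) = c • V s X
  rw [map_smul]

lemma Flow.skew (F : Flow φ V D) (X Y : K) :
    (inner ℝ (D X) Y : ℝ) = -(inner ℝ X (D Y) : ℝ) := by
  have h1 := (F.der X).inner ℝ (F.der Y)
  have h2 : HasDerivAt (fun _ : ℝ => (inner ℝ X Y : ℝ)) 0 0 := hasDerivAt_const _ _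
  have h3 := h1.unique (h2.congr_of_eventuallyEq (Eventually.of_forall fun s => by
    show inner ℝ (V s X) (V s Y) = inner ℝ X Y
    rw [LinearIsometry.inner_map_map]))
  rw [F.zero, F.zero] at h3
  linarith

lemma Flow.stat (h : CF φ φ') (F : Flow φ V D) (X : K) : φ' X (D X) = 0 := by
  have h0 : HasFDerivAt φ (φ' X) (V 0 X) := by
    rw [F.zero]
    exact h.deriv X
  have h1 := h0.comp_hasDerivAt (0 : ℝ) (F.der X)
  have h2 : HasDerivAt (fun _ : ℝ => φ X) 0 0 := hasDerivAt_const _ _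
  exact h1.unique (h2.congr_of_eventuallyEq (Eventually.of_forall fun s => F.inv s X))

lemma Flow.dmap (h : CF φ φ') (F : Flow φ V D) (t : ℝ) (Y Z : K) :
    φ' (V t Y) (V t Z) = φ' Y Z := by
  have h0 := h.line Y Z 0
  have h1 := h.line (V t Y) (V t Z) 0
  simp only [zero_smul, add_zero] at h0 h1
  refine h1.unique (h0.congr_of_eventuallyEq (Eventually.of_forall fun s => ?_))
  show φ (V t Y + s • V t Z) = φ (Y + s • Z)
  rw [← F.inv t (Y + s • Z), map_add, map_smul]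

lemma Flow.Gd_mem (h : CF φ φ') (F : Flow φ V D) (t : ℝ) {Z : K} (hZ : Z ∈ Gd φ φ') :
    V t Z ∈ Gd φ φ' := by
  intro Y
  have h1 := F.dmap h t (V (-t) Y) Z
  rw [F.neg'] at h1
  rw [h1, hZ, F.inv, ← LinearIsometry.inner_map_map (V t) Z, F.neg']

lemma Flow.orth_mem (h : CF φ φ') (F : Flow φ V D) (t : ℝ) {X : K} (hX : X ∈ (Gd φ φ')ᗮ) :
    V t X ∈ (Gd φ φ')ᗮ := by
  rw [Submodule.mem_orthogonal] at hX ⊢
  intro Z hZ
  have h1 := hX _ (F.Gd_mem h (-t) hZ)
  rw [← LinearIsometry.inner_map_map (V t), F.neg'] at h1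
  exact h1

lemma Flow.D_orth (h : CF φ φ') (F : Flow φ V D) {X : K} (hX : X ∈ (Gd φ φ')ᗮ) :
    D X ∈ (Gd φ φ')ᗮ := by
  rw [Submodule.mem_orthogonal]
  intro Z hZ
  have h1 : HasDerivAt (fun t : ℝ => (inner ℝ Z (V t X) : ℝ)) (inner ℝ Z (D X)) 0 := by
    have := (hasDerivAt_const (0 : ℝ) Z).inner ℝ (F.der X)
    simpa using this
  have h2 : HasDerivAt (fun _ : ℝ => (0 : ℝ)) 0 0 := hasDerivAt_const _ _
  refine h1.unique (h2.congr_of_eventuallyEq (Eventually.of_forall fun s => ?_))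
  exact (Submodule.mem_orthogonal _ _).1 (F.orth_mem h s hX) Z hZ

/-! ### Splittings -/

/-- an independent splitting -/
structure Split (φ : K → ℂ) (K₁ K₂ : Submodule ℝ K) : Prop where
  dec : ∀ X, ∃ a ∈ K₁, ∃ b ∈ K₂, X = a + b
  mul : ∀ X ∈ K₁, ∀ Y ∈ K₂, φ (X + Y) = φ X * φ Y

variable {K₁ K₂ : Submodule ℝ K}

lemma Split.symm (S : Split φ K₁ K₂) : Split φ K₂ K₁ := by
  refine ⟨fun X => ?_, fun X hX Y hY => ?_⟩
  · obtain ⟨a, ha, b, hb, e⟩ := S.dec X
    exact ⟨b, hb, a, ha, by rw [e, add_comm]⟩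
  · rw [add_comm, S.mul Y hY X hX, mul_comm]

/-- the derivative in a direction of `K₁` -/
lemma Split.d1 (h : CF φ φ') (S : Split φ K₁ K₂) {X Y a : K} (hX : X ∈ K₁) (hY : Y ∈ K₂)
    (ha : a ∈ K₁) : φ' (X + Y) a = φ' X a * φ Y := by
  have h0 := h.line (X + Y) a 0
  have h1 := (h.line X a 0).mul_const (φ Y)
  simp only [zero_smul, add_zero] at h0 h1
  refine h0.unique (h1.congr_of_eventuallyEq (Eventually.of_forall fun s => ?_))
  show φ (X + Y + s • a) = φ (X + s • a) * φ Y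
  rw [← S.mul _ (K₁.add_mem hX (K₁.smul_mem s ha)) _ hY]
  congr 1
  abel

lemma Split.d2 (h : CF φ φ') (S : Split φ K₁ K₂) {X Y b : K} (hX : X ∈ K₁) (hY : Y ∈ K₂)
    (hb : b ∈ K₂) : φ' (X + Y) b = φ X * φ' Y b := by
  rw [add_comm X Y, S.symm.d1 h hY hX hb, mul_comm]

lemma Split.cross (h : CF φ φ') (S : Split φ K₁ K₂) {X b : K} (hX : X ∈ K₁) (hb : b ∈ K₂) :
    φ' X b = 0 := by
  have := S.d2 h hX K₂.zero_mem hb
  rw [add_zero, h.d0, mul_zero] at this
  exact this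

lemma Split.orth (h : CF φ φ') (S : Split φ K₁ K₂) {X b : K} (hX : X ∈ K₁) (hb : b ∈ K₂) :
    (inner ℝ X b : ℝ) = 0 := by
  have h1 := h.sec X b
  have h2 : ∀ ε : ℝ, ((ε⁻¹ : ℝ) : ℂ) * φ' (ε • X) b = 0 := by
    intro ε
    rw [S.cross h (K₁.smul_mem ε hX) hb, mul_zero]
  simp only [h2] at h1
  have h3 := tendsto_nhds_unique h1 tendsto_const_nhds
  have h4 : ((inner ℝ X b : ℝ) : ℂ) = 0 := neg_eq_zero.1 h3
  exact_mod_cast h4

lemma Split.closed (h : CF φ φ') (S : Split φ K₁ K₂) : K₁ = K₂ᗮ := by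
  ext X
  rw [Submodule.mem_orthogonal]
  constructor
  · intro hX b hb
    rw [real_inner_comm]
    exact S.orth h hX hb
  · intro hX
    obtain ⟨a, ha, b, hb, e⟩ := S.dec X
    have h1 := hX b hb
    rw [e, inner_add_right, real_inner_comm, S.orth h ha hb, zero_add] at h1
    have h2 : b = 0 := inner_self_eq_zero.1 h1
    rw [e, h2, add_zero]
    exact ha

/-- membership in the space of Gaussian directions can be tested on one factor -/
lemma Split.test (h : CF φ φ') (S : Split φ K₁ K₂) {b : K} (hb : b ∈ K₂)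
    (hY : ∀ Y ∈ K₂, φ' Y b = -((inner ℝ b Y : ℝ) : ℂ) * φ Y) : b ∈ Gd φ φ' := by
  intro Y
  obtain ⟨c, hc, d, hd, e⟩ := S.dec Y
  have o : (inner ℝ b c : ℝ) = 0 := by
    rw [real_inner_comm]
    exact S.orth h hc hb
  rw [e, S.d2 h hc hd hb, hY d hd, S.mul c hc d hd, inner_add_right, o]
  push_cast
  ring

/-- the components of a Gaussian direction are Gaussian directions -/
lemma Split.comp (h : CF φ φ') (S : Split φ K₁ K₂) {a b : K} (ha : a ∈ K₁) (hb : b ∈ K₂)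
    (hZ : a + b ∈ Gd φ φ') : b ∈ Gd φ φ' := by
  refine S.test h hb fun Y hY => ?_
  have h1 := hZ Y
  rw [map_add, S.symm.cross h hY ha, zero_add, inner_add_left, S.orth h ha hY, zero_add] at h1
  exact h1

/-- **The derivative of an element of `K₁` has a Gaussian component in `K₂`.** -/
theorem Split.main (h : CF φ φ') (S : Split φ K₁ K₂) (F : Flow φ V D) {X a b : K} (hX : X ∈ K₁)
    (ha : a ∈ K₁) (hb : b ∈ K₂) (e : D X = a + b) : b ∈ Gd φ φ' := by
  refine S.test h hb fun Y hY => ?_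
  obtain ⟨c, hc, d, hd, e'⟩ := S.dec (D Y)
  have i1 : φ' Y d = 0 := by
    have := F.stat h Y
    rw [e', map_add, S.symm.cross h hY hc, zero_add] at this
    exact this
  have i2 : ∀ ε : ℝ, ε ≠ 0 → φ' (ε • X) a = 0 := by
    intro ε hε
    have := F.stat h (ε • X)
    rw [F.D_smul, map_smul, e, map_add, S.cross h (K₁.smul_mem ε hX) hb, add_zero] at this
    exact (smul_eq_zero.1 this).resolve_left hε
  have i3 : ∀ ε : ℝ, ε ≠ 0 → φ (ε • X) * φ' Y b + ((ε⁻¹ : ℝ) : ℂ) * φ' (ε • X) c * φ Y = 0 := by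
    intro ε hε
    have := F.stat h (ε • X + Y)
    have m := K₁.smul_mem ε hX
    rw [F.D_add, F.D_smul, e, e', map_add, map_smul, map_add, map_add, S.d1 h m hY ha,
      S.d2 h m hY hb, S.d1 h m hY hc, S.d2 h m hY hd, i1, i2 ε hε, mul_zero, add_zero, zero_mul,
      zero_add] at this
    have hε' : (ε : ℂ) ≠ 0 := Complex.ofReal_ne_zero.2 hε
    rw [Complex.real_smul] at this
    have h2 : (ε : ℂ) * (φ (ε • X) * φ' Y b + ((ε⁻¹ : ℝ) : ℂ) * φ' (ε • X) c * φ Y) = 0 := by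
      rw [← this]
      push_cast
      field_simp
    exact (mul_eq_zero.1 h2).resolve_left hε'
  have l1 : Tendsto (fun ε : ℝ => φ (ε • X) * φ' Y b +
      ((ε⁻¹ : ℝ) : ℂ) * φ' (ε • X) c * φ Y) (𝓝[≠] 0)
      (𝓝 (φ ((0 : ℝ) • X) * φ' Y b + -((inner ℝ X c : ℝ) : ℂ) * φ Y)) := by
    refine Tendsto.add (Tendsto.mul_const _ ?_) ((h.sec X c).mul_const _)
    have c1 : Continuous φ := continuous_iff_continuousAt.2 fun X => (h.deriv X).continuousAt
    have c2 : Continuous fun ε : ℝ => φ (ε • X) := c1.comp (continuous_id.smul continuous_const)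
    exact (c2.tendsto 0).mono_left nhdsWithin_le_nhds
  have l2 : Tendsto (fun ε : ℝ => φ (ε • X) * φ' Y b +
      ((ε⁻¹ : ℝ) : ℂ) * φ' (ε • X) c * φ Y) (𝓝[≠] 0) (𝓝 0) := by
    refine tendsto_const_nhds.congr' ?_
    filter_upwards [self_mem_nhdsWithin] with ε hε
    exact (i3 ε hε).symm
  have l3 := tendsto_nhds_unique l1 l2
  rw [zero_smul, h.zero, one_mul] at l3
  have i4 : (inner ℝ X c : ℝ) = -(inner ℝ b Y : ℝ) := by
    have h1 := F.skew X Y
    rw [e, e', inner_add_left, inner_add_right, S.orth h ha hY, S.orth h hX hd] at h1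
    linarith
  rw [i4] at l3
  push_cast at l3
  linear_combination l3

/-- the non-Gaussian part of `K₁` is invariant under the generator -/
lemma Split.D_inv (h : CF φ φ') (S : Split φ K₁ K₂) (F : Flow φ V D) {X : K}
    (hX : X ∈ K₁ ⊓ (Gd φ φ')ᗮ) : D X ∈ K₁ ⊓ (Gd φ φ')ᗮ := by
  obtain ⟨a, ha, b, hb, e⟩ := S.dec (D X)
  have h1 := S.main h F hX.1 ha hb e
  have h2 := F.D_orth h hX.2
  have h3 := (Submodule.mem_orthogonal _ _).1 h2 b h1
  rw [e, inner_add_right, real_inner_comm, S.orth h ha hb, zero_add] at h3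
  have h4 : b = 0 := inner_self_eq_zero.1 h3
  refine ⟨?_, h2⟩
  rw [e, h4, add_zero]
  exact ha

/-- the components of an element orthogonal to the Gaussian directions -/
lemma Split.orth_comp (h : CF φ φ') (S : Split φ K₁ K₂) {a b : K} (ha : a ∈ K₁) (hb : b ∈ K₂)
    (hZ : a + b ∈ (Gd φ φ')ᗮ) : b ∈ (Gd φ φ')ᗮ := by
  rw [Submodule.mem_orthogonal] at hZ ⊢
  intro Z hZ'
  obtain ⟨c, hc, d, hd, e⟩ := S.dec Z
  rw [e] at hZ'
  have h1 := S.comp h hc hd hZ'
  have h2 := hZ d h1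
  rw [inner_add_right, real_inner_comm, S.orth h ha hd, zero_add] at h2
  rw [e, inner_add_left, S.orth h hc hb, zero_add]
  exact h2

/-- **The non-Gaussian part of `K₁` is invariant under the group.** -/
theorem Split.V_inv (h : CF φ φ') (S : Split φ K₁ K₂) (F : Flow φ V D) {X : K}
    (hX : X ∈ K₁ ⊓ (Gd φ φ')ᗮ) (t : ℝ) : V t X ∈ K₁ ⊓ (Gd φ φ')ᗮ := by
  have hcl : IsClosed (K₂ : Set K) := by
    rw [S.symm.closed h]
    exact K₁.isClosed_orthogonal
  have : CompleteSpace K₂ := hcl.completeSpace_coe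
  have hm : ∀ t, V t X ∈ (Gd φ φ')ᗮ := fun t => F.orth_mem h t hX.2
  refine ⟨?_, hm t⟩
  obtain ⟨Q, hQ⟩ : ∃ Q : K →L[ℝ] K, Q = K₂.starProjection := ⟨_, rfl⟩
  have q1 : ∀ a ∈ K₁, Q a = 0 := by
    intro a ha
    rw [hQ, Submodule.starProjection_apply_eq_zero_iff]
    rw [← S.closed h]
    exact ha
  have q2 : ∀ b ∈ K₂, Q b = b := by
    intro b hb
    rw [hQ]
    exact Submodule.starProjection_eq_self_iff.2 hb
  have q3 : ∀ a ∈ K₁, ∀ b ∈ K₂, Q (a + b) = b := by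
    intro a ha b hb
    rw [map_add, q1 a ha, q2 b hb, zero_add]
  have dB : ∀ t, HasDerivAt (fun t : ℝ => Q (V t X)) (D (Q (V t X))) t := by
    intro t
    have h1 := Q.hasFDerivAt.comp_hasDerivAt t (F.derAt X t)
    refine h1.congr_deriv ?_
    obtain ⟨a, ha, b, hb, e⟩ := S.dec (V t X)
    have h2 := hm t
    rw [e] at h2
    have mb : b ∈ K₂ ⊓ (Gd φ φ')ᗮ := ⟨hb, S.orth_comp h ha hb h2⟩
    have ma : a ∈ K₁ ⊓ (Gd φ φ')ᗮ := by
      refine ⟨ha, S.symm.orth_comp h hb ha ?_⟩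
      rw [add_comm]
      exact h2
    rw [e, q3 a ha b hb, F.D_add, q3 _ (S.D_inv h F ma).1 _ (S.symm.D_inv h F mb).1]
  have dN : ∀ t, HasDerivAt (fun t : ℝ => (inner ℝ (Q (V t X)) (Q (V t X)) : ℝ)) 0 t := by
    intro t
    refine ((dB t).inner ℝ (dB t)).congr_deriv ?_
    have k1 := F.skew (Q (V t X)) (Q (V t X))
    linarith
  have h5 := is_const_of_deriv_eq_zero (fun s => (dN s).differentiableAt)
    (fun s => (dN s).deriv) t 0
  rw [F.zero, q1 X hX.1, inner_zero_left] at h5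
  have h6 : Q (V t X) = 0 := inner_self_eq_zero.1 h5
  obtain ⟨a, ha, b, hb, e⟩ := S.dec (V t X)
  rw [e, q3 a ha b hb] at h6
  rw [e, h6, add_zero]
  exact ha

/-- **The decomposition.** -/
theorem Split.full (h : CF φ φ') (S : Split φ K₁ K₂) (X : K) :
    ∃ a ∈ K₁ ⊓ (Gd φ φ')ᗮ, ∃ b ∈ K₂ ⊓ (Gd φ φ')ᗮ, ∃ c ∈ Gd φ φ', X = a + b + c := by
  have : CompleteSpace (Gd φ φ') := Gd_closed.completeSpace_coe
  obtain ⟨c, hc, r, hr, e⟩ := Submodule.exists_add_mem_mem_orthogonal (K := Gd φ φ') X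
  obtain ⟨a, ha, b, hb, e'⟩ := S.dec r
  rw [e'] at hr
  refine ⟨a, ⟨ha, S.symm.orth_comp h hb ha (by rw [add_comm]; exact hr)⟩, b,
    ⟨hb, S.orth_comp h ha hb hr⟩, c, hc, ?_⟩
  rw [e, e', add_comm]

/-- the characteristic functional of the parts -/
theorem Split.prod (h : CF φ φ') (S : Split φ K₁ K₂) {a b c : K} (ha : a ∈ K₁ ⊓ (Gd φ φ')ᗮ)
    (hb : b ∈ K₂ ⊓ (Gd φ φ')ᗮ) (hc : c ∈ Gd φ φ') :
    φ (a + b + c) = φ a * φ b * Complex.exp (-((‖c‖ ^ 2 : ℝ) : ℂ) / 2) := by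
  rw [h.gauss hc, S.mul a ha.1 b hb.1]
  have h1 : (inner ℝ c (a + b) : ℝ) = 0 :=
    (Submodule.mem_orthogonal _ _).1 (Submodule.add_mem _ ha.2 hb.2) c hc
  rw [h1]
  congr 2
  push_cast
  ring

end

end Pool.Agent.KS6_61.IS
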