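import Pool.Agent.KS6_61.IS.Phi

/-!
# Laws, independence and the characteristic functional
-/

set_option autoImplicit false
set_option linter.unusedSectionVars false
open MeasureTheory Filter Topology ProbabilityTheory
open scoped ENNReal NNReal

namespace Pool.Agent.KS6_61.IS

noncomputable section

variable {Ω : Type*} [MeasurableSpace Ω] {P : Measure Ω} [IsProbabilityMeasure P]

lemma phi_sum {κ : Type*} (s : Finset κ) (r : κ → ℝ) (Z : κ → Lp ℝ 2 P) :
    phi P (∑ k ∈ s, r k • Z k) = ∫ ω, Complex.exp (((∑ k ∈ s, r k * Z k ω : ℝ) : ℂ) * Complex.I) ∂P := by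
  unfold phi
  refine integral_congr_ae ?_
  have h : ∀ᵐ ω ∂P, ∀ k ∈ s, (r k • Z k : Lp ℝ 2 P) ω = r k * Z k ω := by
    refine (Filter.eventually_all_finset s).2 fun k _ => ?_
    filter_upwards [Lp.coeFn_smul (r k) (Z k)] with ω hω
    rw [hω, Pi.smul_apply, smul_eq_mul]
  filter_upwards [Lp.coeFn_finsetSum s (fun k => r k • Z k), h] with ω h1 h2
  rw [h1, Finset.sum_apply]
  congr 3
  exact Finset.sum_congr rfl h2

/-- a linear functional on a finite power of `ℝ` -/
lemma dual_pi {κ : Type*} [Fintype κ] [DecidableEq κ] (L : StrongDual ℝ (κ → ℝ)) (z : κ → ℝ) :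
    L z = ∑ k, L (Pi.single k 1) * z k := by
  have : z = ∑ k, z k • (Pi.single k 1 : κ → ℝ) := by
    funext j
    rw [Finset.sum_apply, Finset.sum_eq_single j]
    · simp
    · intro k _ hk
      simp [hk.symm]
    · simp
  conv_lhs => rw [this]
  rw [map_sum]
  refine Finset.sum_congr rfl fun k _ => ?_
  rw [map_smul, smul_eq_mul, mul_comm]

variable {T : Type*}

/-- equality of laws -/
theorem law_of_phi {Y Y' : T → Lp ℝ 2 P} (h : ∀ (n : ℕ) (r : Fin n → ℝ) (t : Fin n → T),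
    phi P (∑ k, r k • Y (t k)) = phi P (∑ k, r k • Y' (t k))) :
    P.map (fun ω t => (Y t : Ω → ℝ) ω) = P.map (fun ω t => (Y' t : Ω → ℝ) ω) := by
  classical
  have m : ∀ Y : T → Lp ℝ 2 P, Measurable (fun ω t => (Y t : Ω → ℝ) ω) := fun Y =>
    measurable_pi_iff.2 fun t => mX (Y t)
  rw [map_eq_iff_forall_finset_map_restrict_eq (X := fun t ω => (Y t : Ω → ℝ) ω)
    (Y := fun t ω => (Y' t : Ω → ℝ) ω) (m Y).aemeasurable (m Y').aemeasurable]
  intro I
  have m2 : ∀ Y : T → Lp ℝ 2 P, Measurable (fun ω => I.restrict fun t => (Y t : Ω → ℝ) ω) :=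
    fun Y => measurable_pi_iff.2 fun t => mX (Y t)
  have p1 : IsProbabilityMeasure (P.map (fun ω => I.restrict fun t => (Y t : Ω → ℝ) ω)) :=
    Measure.isProbabilityMeasure_map (m2 Y).aemeasurable
  have p2 : IsProbabilityMeasure (P.map (fun ω => I.restrict fun t => (Y' t : Ω → ℝ) ω)) :=
    Measure.isProbabilityMeasure_map (m2 Y').aemeasurable
  refine Measure.ext_of_charFunDual (funext fun L => ?_)
  have key : ∀ Y : T → Lp ℝ 2 P,
      charFunDual (P.map (fun ω => I.restrict fun t => (Y t : Ω → ℝ) ω)) L =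
      phi P (∑ k : Fin (Fintype.card I), L (Pi.single ((Fintype.equivFin I).symm k) 1) •
        Y ((Fintype.equivFin I).symm k).1) := by
    intro Y
    rw [charFunDual_apply, integral_map (m2 Y).aemeasurable (by fun_prop), phi_sum]
    congr 1
    funext ω
    congr 3
    rw [dual_pi, ← Equiv.sum_comp (Fintype.equivFin I).symm]
    rfl
  rw [key, key, h]

/-- independence of three fields -/
theorem indep_of_phi {Y : Fin 3 → T → Lp ℝ 2 P}
    (h : ∀ g : Fin 3 → Lp ℝ 2 P, (∀ i, g i ∈ Submodule.span ℝ (Set.range (Y i))) →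
      phi P (∑ i, g i) = ∏ i, phi P (g i)) :
    iIndepFun (fun i ω t => (Y i t : Ω → ℝ) ω) P := by
  classical
  refine iIndepFun.iIndepFun_process (X := fun i t ω => (Y i t : Ω → ℝ) ω)
    (fun i t => mX (Y i t)) fun I J => ?_
  have mm : ∀ i : I, Measurable fun ω (j : J i) => (Y i j.1 : Ω → ℝ) ω := fun i =>
    measurable_pi_iff.2 fun j => mX (Y i j.1)
  refine (iIndepFun_iff_charFunDual_pi (E := fun i : I => (J i → ℝ))
    (X := fun (i : I) ω (j : J i) => (Y i j.1 : Ω → ℝ) ω) (P := P)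
    fun i => (mm i).aemeasurable).2 ?_
  intro L
  obtain ⟨l, hl⟩ : ∃ l : (i : I) → J i → ℝ, ∀ i j,
      l i j = (L.comp (.single ℝ (fun i : I => J i → ℝ) i)) (Pi.single j 1) :=
    ⟨_, fun _ _ => rfl⟩
  obtain ⟨S, hS⟩ : ∃ S : I → Lp ℝ 2 P, ∀ i, S i = ∑ j, l i j • Y i j.1 := ⟨_, fun _ => rfl⟩
  obtain ⟨g, hg⟩ : ∃ g : Fin 3 → Lp ℝ 2 P, ∀ i, g i = if hi : i ∈ I then S ⟨i, hi⟩ else 0 :=
    ⟨_, fun _ => rfl⟩
  have gm : ∀ i, g i ∈ Submodule.span ℝ (Set.range (Y i)) := by
    intro i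
    rw [hg]
    split_ifs with hi
    · rw [hS]
      exact Submodule.sum_mem _ fun j _ => Submodule.smul_mem _ _ (Submodule.subset_span ⟨_, rfl⟩)
    · exact Submodule.zero_mem _
  have g1 : ∀ i : I, g i = S i := by
    intro i
    rw [hg, dif_pos i.2]
  have g2 : ∀ i, i ∉ I → g i = 0 := by
    intro i hi
    rw [hg, dif_neg hi]
  have s1 : ∑ i, g i = ∑ i : I, S i := by
    rw [← Finset.sum_subset (Finset.subset_univ I) fun i _ hi => g2 i hi,
      ← Finset.sum_coe_sort]
    exact Finset.sum_congr rfl fun i _ => g1 i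
  have s2 : ∏ i, phi P (g i) = ∏ i : I, phi P (S i) := by
    rw [← Finset.prod_subset (Finset.subset_univ I) fun i _ hi => by rw [g2 i hi, phi_zero],
      ← Finset.prod_coe_sort]
    exact Finset.prod_congr rfl fun i _ => by rw [g1 i]
  have hh := h g gm
  rw [s1, s2] at hh
  have m1 : Measurable fun ω (i : I) (j : J i) => (Y i j.1 : Ω → ℝ) ω :=
    measurable_pi_iff.2 fun i => measurable_pi_iff.2 fun j => mX (Y i j.1)
  have m2 : ∀ i : I, Measurable fun ω (j : J i) => (Y i j.1 : Ω → ℝ) ω := fun i =>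
    measurable_pi_iff.2 fun j => mX (Y i j.1)
  have c1 : ∀ i : I, charFunDual (P.map fun ω (j : J i) => (Y i j.1 : Ω → ℝ) ω)
      (L.comp (.single ℝ (fun i : I => J i → ℝ) i)) = phi P (S i) := by
    intro i
    rw [charFunDual_apply, integral_map (m2 i).aemeasurable (by fun_prop), hS, phi_sum]
    congr 1
    funext ω
    congr 3
    rw [dual_pi]
    exact Finset.sum_congr rfl fun j _ => by rw [hl]
  have c2 : charFunDual (P.map fun ω (i : I) (j : J i) => (Y i j.1 : Ω → ℝ) ω) L =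
      phi P (∑ i : I, S i) := by
    rw [charFunDual_apply, integral_map m1.aemeasurable (by fun_prop)]
    have e : ∑ i : I, S i = ∑ p : (Σ i : I, J i), l p.1 p.2 • Y p.1 p.2.1 := by
      rw [Fintype.sum_sigma]
      exact Finset.sum_congr rfl fun i _ => hS i
    rw [e, phi_sum]
    congr 1
    funext ω
    congr 3
    rw [Fintype.sum_sigma]
    have : (fun (i : I) (j : J i) => (Y i j.1 : Ω → ℝ) ω) =
        ∑ i : I, (ContinuousLinearMap.single ℝ (fun i : I => J i → ℝ) i)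
          (fun j : J i => (Y i j.1 : Ω → ℝ) ω) := by
      funext i
      rw [Finset.sum_apply, Finset.sum_eq_single i]
      · simp
      · intro k _ hk
        simp [hk.symm]
      · simp
    rw [this, map_sum]
    refine Finset.sum_congr rfl fun i _ => ?_
    have h3 := dual_pi (L.comp (.single ℝ (fun i : I => J i → ℝ) i))
      (fun j : J i => (Y i j.1 : Ω → ℝ) ω)
    rw [ContinuousLinearMap.comp_apply] at h3
    rw [h3]
    exact Finset.sum_congr rfl fun j _ => by rw [hl]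
  show charFunDual (P.map fun ω (i : I) (j : J i) => (Y i j.1 : Ω → ℝ) ω) L =
    ∏ i : I, charFunDual (P.map fun ω (j : J i) => (Y i j.1 : Ω → ℝ) ω)
      (L.comp (.single ℝ (fun i : I => J i → ℝ) i))
  rw [c2, hh]
  exact Finset.prod_congr rfl fun i _ => (c1 i).symm

/-- Gaussian laws -/
theorem gauss_of_phi {Z : Lp ℝ 2 P} (h : ∀ t : ℝ, phi P (t • Z) =
    Complex.exp (-((‖t • Z‖ ^ 2 : ℝ) : ℂ) / 2)) {f : Ω → ℝ} (mf : Measurable f)
    (hf : f =ᵐ[P] (Z : Ω → ℝ)) : ∃ v : ℝ≥0, P.map f = gaussianReal 0 v := by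
  obtain ⟨v, hv⟩ : ∃ v : ℝ≥0, (v : ℝ) = ‖Z‖ ^ 2 := ⟨⟨‖Z‖ ^ 2, sq_nonneg _⟩, rfl⟩
  refine ⟨v, ?_⟩
  have hp : IsProbabilityMeasure (P.map f) := Measure.isProbabilityMeasure_map mf.aemeasurable
  refine Measure.ext_of_charFun (funext fun t => ?_)
  rw [charFun_gaussianReal, charFun_apply_real, integral_map mf.aemeasurable (by fun_prop)]
  have e : ∫ ω, Complex.exp ((t : ℂ) * (f ω : ℂ) * Complex.I) ∂P = phi P (t • Z) := by
    unfold phi
    refine integral_congr_ae ?_
    filter_upwards [hf, Lp.coeFn_smul t Z] with ω h1 h2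
    rw [h1, h2, Pi.smul_apply, smul_eq_mul]
    push_cast
    rfl
  rw [e, h, norm_smul, mul_pow, Real.norm_eq_abs, sq_abs, ← hv]
  congr 1
  push_cast
  ring

end

end Pool.Agent.KS6_61.IS
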