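import Pool.Agent.KS6_61.IS.Obs
import Pool.Agent.KS6_61.IS.Law

/-!
# Independent splittings of the linear observables of a stationary wave
-/

set_option autoImplicit false
set_option linter.unusedSectionVars false
open MeasureTheory Filter Topology ProbabilityTheory
open scoped ENNReal NNReal

namespace Pool.Agent.KS6_61.IS

noncomputable section

open Pool.Agent.X127.SW Pool.Agent.Y139.SW

section Uniq

variable {K : Type*} [NormedAddCommGroup K] [InnerProductSpace ℝ K] [CompleteSpace K]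
  {φ : K → ℂ} {φ' : K → K →L[ℝ] ℂ} {K₁ K₂ : Submodule ℝ K}

/-- the components are unique -/
lemma Split.uniq (h : CF φ φ') (S : Split φ K₁ K₂) {a b c a' b' c' : K}
    (ha : a ∈ K₁ ⊓ (Gd φ φ')ᗮ) (hb : b ∈ K₂ ⊓ (Gd φ φ')ᗮ) (hc : c ∈ Gd φ φ')
    (ha' : a' ∈ K₁ ⊓ (Gd φ φ')ᗮ) (hb' : b' ∈ K₂ ⊓ (Gd φ φ')ᗮ) (hc' : c' ∈ Gd φ φ')
    (e : a + b + c = a' + b' + c') : a = a' ∧ b = b' ∧ c = c' := by
  have p := Submodule.sub_mem _ ha ha'
  have q := Submodule.sub_mem _ hb hb'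
  have r := Submodule.sub_mem _ hc hc'
  have e2 : (a - a') + (b - b') + (c - c') = 0 := by
    have : (a - a') + (b - b') + (c - c') = (a + b + c) - (a' + b' + c') := by abel
    rw [this, e, sub_self]
  have o1 : (inner ℝ (a - a') (b - b') : ℝ) = 0 := S.orth h p.1 q.1
  have o2 : (inner ℝ (a - a') (c - c') : ℝ) = 0 := by
    rw [real_inner_comm]
    exact (Submodule.mem_orthogonal _ _).1 p.2 _ r
  have o3 : (inner ℝ (b - b') (c - c') : ℝ) = 0 := by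
    rw [real_inner_comm]
    exact (Submodule.mem_orthogonal _ _).1 q.2 _ r
  have z1 : a - a' = 0 := by
    have : (inner ℝ (a - a') ((a - a') + (b - b') + (c - c')) : ℝ) = 0 := by
      rw [e2, inner_zero_right]
    rw [inner_add_right, inner_add_right, o1, o2, add_zero, add_zero] at this
    exact inner_self_eq_zero.1 this
  have z2 : b - b' = 0 := by
    have : (inner ℝ (b - b') ((a - a') + (b - b') + (c - c')) : ℝ) = 0 := by
      rw [e2, inner_zero_right]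
    rw [z1, zero_add, inner_add_right, o3, add_zero] at this
    exact inner_self_eq_zero.1 this
  rw [z1, z2, zero_add, zero_add] at e2
  exact ⟨sub_eq_zero.1 z1, sub_eq_zero.1 z2, sub_eq_zero.1 e2⟩

end Uniq

variable {d : ℕ} {Ω : Type*} [MeasurableSpace Ω] {P : Measure Ω} [IsProbabilityMeasure P]
  {F : Ω → E d → ℝ}

/-- **The decomposition.** -/
theorem dec (H : WV P F) (h0 : ∫ ω, F ω 0 ∂P = 0) {K₁ K₂ : Submodule ℝ (Lp ℝ 2 P)}
    (hK : K₁ ⊔ K₂ = obs P F)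
    (hI : ∀ X ∈ K₁, ∀ Y ∈ K₂, IndepFun (X : Ω → ℝ) (Y : Ω → ℝ) P) :
    ∃ Y : Fin 3 → E d → Lp ℝ 2 P, (∀ y, val H y = Y 0 y + Y 1 y + Y 2 y) ∧
      (∀ y, Y 0 y ∈ K₁) ∧ (∀ y, Y 1 y ∈ K₂) ∧
      (∀ i x, P.map (fun ω y => (Y i (y + x) : Ω → ℝ) ω) =
        P.map (fun ω y => (Y i y : Ω → ℝ) ω)) ∧
      iIndepFun (fun i ω y => (Y i y : Ω → ℝ) ω) P ∧
      (∀ (n : ℕ) (r : Fin n → ℝ) (x : Fin n → E d), ∀ t : ℝ,
        phi P (t • ∑ k, r k • Y 2 (x k)) =
          Complex.exp (-((‖t • ∑ k, r k • Y 2 (x k)‖ ^ 2 : ℝ) : ℂ) / 2)) ∧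
      (∀ i x y z, (inner ℝ (Y i (x + z)) (val H (y + z)) : ℝ) = inner ℝ (Y i x) (val H y)) := by
  obtain ⟨φ, φ', U, D, eφ, hcf, hfl, hU⟩ := flows H h0
  have k1 : K₁ ≤ obs P F := by rw [← hK]; exact le_sup_left
  have k2 : K₂ ≤ obs P F := by rw [← hK]; exact le_sup_right
  have S : Split φ (K₁.comap (obs P F).subtype) (K₂.comap (obs P F).subtype) := by
    refine ⟨fun X => ?_, fun X hX Y hY => ?_⟩
    · have h1 : (X : Lp ℝ 2 P) ∈ K₁ ⊔ K₂ := hK.ge X.2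
      obtain ⟨a, ha, b, hb, e⟩ := Submodule.mem_sup.1 h1
      exact ⟨⟨a, k1 ha⟩, ha, ⟨b, k2 hb⟩, hb, Subtype.ext e.symm⟩
    · rw [eφ, eφ, eφ]
      exact phi_indep (hI _ hX _ hY)
  choose a ha b hb c hc e using fun y => S.full hcf (⟨val H y, val_mem H y⟩ : obs P F)
  have f1 : ∀ x X, φ (U x X) = φ X := by
    intro x X
    have := (hfl x).inv 1 X
    rwa [one_smul] at this
  have m1 : ∀ x, ∀ X ∈ K₁.comap (obs P F).subtype ⊓ (Gd φ φ')ᗮ,
      U x X ∈ K₁.comap (obs P F).subtype ⊓ (Gd φ φ')ᗮ := by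
    intro x X hX
    have := S.V_inv hcf (hfl x) hX 1
    rwa [one_smul] at this
  have m2 : ∀ x, ∀ X ∈ K₂.comap (obs P F).subtype ⊓ (Gd φ φ')ᗮ,
      U x X ∈ K₂.comap (obs P F).subtype ⊓ (Gd φ φ')ᗮ := by
    intro x X hX
    have := S.symm.V_inv hcf (hfl x) hX 1
    rwa [one_smul] at this
  have m3 : ∀ x, ∀ X ∈ Gd φ φ', U x X ∈ Gd φ φ' := by
    intro x X hX
    have := (hfl x).Gd_mem hcf 1 hX
    rwa [one_smul] at this
  have sh : ∀ x y, U x (a y) = a (y + x) ∧ U x (b y) = b (y + x) ∧ U x (c y) = c (y + x) := by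
    intro x y
    refine S.uniq hcf (m1 x _ (ha y)) (m2 x _ (hb y)) (m3 x _ (hc y)) (ha _) (hb _) (hc _) ?_
    rw [← map_add, ← map_add, ← e y, ← e (y + x)]
    exact hU x y
  obtain ⟨W, hW⟩ : ∃ W : Fin 3 → E d → obs P F, W = ![a, b, c] := ⟨_, rfl⟩
  have w0 : W 0 = a := by rw [hW]; rfl
  have w1 : W 1 = b := by rw [hW]; rfl
  have w2 : W 2 = c := by rw [hW]; rfl
  have shW : ∀ i x y, U x (W i y) = W i (y + x) := by
    intro i x y
    fin_cases i
    · show U x (W 0 y) = W 0 (y + x)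
      rw [w0]; exact (sh x y).1
    · show U x (W 1 y) = W 1 (y + x)
      rw [w1]; exact (sh x y).2.1
    · show U x (W 2 y) = W 2 (y + x)
      rw [w2]; exact (sh x y).2.2
  have gp : ∀ X ∈ Gd φ φ', φ X = Complex.exp (-((‖X‖ ^ 2 : ℝ) : ℂ) / 2) := by
    intro X hX
    have := hcf.gauss hX 0
    rw [zero_add, hcf.zero, inner_zero_right, one_mul] at this
    rw [this]
    congr 1
    push_cast
    ring
  refine ⟨fun i y => (W i y : Lp ℝ 2 P), fun y => ?_, fun y => ?_, fun y => ?_, fun i x => ?_,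
    ?_, fun n r x t => ?_, fun i x y z => ?_⟩
  · show val H y = (W 0 y : Lp ℝ 2 P) + (W 1 y : Lp ℝ 2 P) + (W 2 y : Lp ℝ 2 P)
    rw [w0, w1, w2]
    exact congrArg Subtype.val (e y)
  · show (W 0 y : Lp ℝ 2 P) ∈ K₁
    rw [w0]; exact (ha y).1
  · show (W 1 y : Lp ℝ 2 P) ∈ K₂
    rw [w1]; exact (hb y).1
  · refine law_of_phi (Y := fun y => (W i (y + x) : Lp ℝ 2 P)) (Y' := fun y => (W i y : Lp ℝ 2 P))
      fun n r t => ?_
    have h1 : (∑ k, r k • (W i (t k + x) : Lp ℝ 2 P)) =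
        ((U x (∑ k, r k • W i (t k)) : obs P F) : Lp ℝ 2 P) := by
      rw [map_sum]
      simp only [map_smul, shW]
      push_cast
      rfl
    have h2 : (∑ k, r k • (W i (t k) : Lp ℝ 2 P)) =
        ((∑ k, r k • W i (t k) : obs P F) : Lp ℝ 2 P) := by
      push_cast
      rfl
    rw [h1, h2, ← eφ, ← eφ, f1]
  · refine indep_of_phi (Y := fun i y => (W i y : Lp ℝ 2 P)) fun g hg => ?_
    obtain ⟨M, hM⟩ : ∃ M : Fin 3 → Submodule ℝ (obs P F),
        M = ![K₁.comap (obs P F).subtype ⊓ (Gd φ φ')ᗮ, K₂.comap (obs P F).subtype ⊓ (Gd φ φ')ᗮ,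
          Gd φ φ'] := ⟨_, rfl⟩
    have n0 : M 0 = K₁.comap (obs P F).subtype ⊓ (Gd φ φ')ᗮ := by rw [hM]; rfl
    have n1 : M 1 = K₂.comap (obs P F).subtype ⊓ (Gd φ φ')ᗮ := by rw [hM]; rfl
    have n2 : M 2 = Gd φ φ' := by rw [hM]; rfl
    have hWM : ∀ i y, W i y ∈ M i := by
      intro i y
      fin_cases i
      · show W 0 y ∈ M 0
        rw [w0, n0]; exact ha y
      · show W 1 y ∈ M 1
        rw [w1, n1]; exact hb y
      · show W 2 y ∈ M 2
        rw [w2, n2]; exact hc y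
    have hgM : ∀ i, ∃ G ∈ M i, ((G : obs P F) : Lp ℝ 2 P) = g i := by
      intro i
      have h1 : Submodule.span ℝ (Set.range fun y => (W i y : Lp ℝ 2 P)) ≤
          (M i).map (obs P F).subtype := by
        rw [Submodule.span_le]
        rintro _ ⟨y, rfl⟩
        exact ⟨W i y, hWM i y, rfl⟩
      obtain ⟨G, hG, e⟩ := h1 (hg i)
      exact ⟨G, hG, e⟩
    choose G hG eG using hgM
    have g0 := hG 0
    have g1 := hG 1
    have g2 := hG 2
    rw [n0] at g0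
    rw [n1] at g1
    rw [n2] at g2
    rw [Fin.sum_univ_three, Fin.prod_univ_three, ← eG 0, ← eG 1, ← eG 2]
    have h1 := S.prod hcf g0 g1 g2
    rw [← gp _ g2, eφ, eφ, eφ, eφ] at h1
    exact h1
  · have h1 : t • ∑ k, r k • W 2 (x k) ∈ Gd φ φ' := by
      refine Submodule.smul_mem _ _ (Submodule.sum_mem _ fun k _ => Submodule.smul_mem _ _ ?_)
      rw [w2]; exact hc _
    have h2 : (t • ∑ k, r k • (W 2 (x k) : Lp ℝ 2 P)) =
        ((t • ∑ k, r k • W 2 (x k) : obs P F) : Lp ℝ 2 P) := by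
      push_cast
      rfl
    show phi P (t • ∑ k, r k • (W 2 (x k) : Lp ℝ 2 P)) =
      Complex.exp (-((‖t • ∑ k, r k • (W 2 (x k) : Lp ℝ 2 P)‖ ^ 2 : ℝ) : ℂ) / 2)
    rw [h2, ← eφ, gp _ h1]
    rfl
  · have h1 : ∀ X Y : obs P F, (inner ℝ (U z X) (U z Y) : ℝ) = inner ℝ X Y := fun X Y =>
      LinearIsometry.inner_map_map _ _ _
    have h2 := h1 (W i x) ⟨val H y, val_mem H y⟩
    rw [shW, hU] at h2
    exact h2

end

end Pool.Agent.KS6_61.IS
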