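import Mathlib

/-!
# Extension of a group of isometries and of its generators from a dense set
-/

set_option autoImplicit false
set_option linter.unusedSectionVars false
open Filter Topology

namespace Pool.Agent.KS6_61.IS

noncomputable section

variable {K : Type*} [NormedAddCommGroup K] [InnerProductSpace ℝ K] [CompleteSpace K]
  {V : Type*} [NormedAddCommGroup V] [NormedSpace ℝ V] {A : Type*} [AddCommGroup A] [Module ℝ A]

/-- a group of isometries on a dense set -/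
structure Pre (e : A →ₗ[ℝ] K) (S : V → A →ₗ[ℝ] A) (δ : V → A →ₗ[ℝ] K) : Prop where
  dense : DenseRange e
  zero : ∀ a, S 0 a = a
  add : ∀ x y a, S (x + y) a = S x (S y a)
  norm : ∀ x a, ‖e (S x a)‖ = ‖e a‖
  bd : ∀ v a, ‖δ v a‖ ≤ ‖v‖ * ‖e a‖
  quad : ∀ v (t : ℝ) a, ‖e (S (t • v) a) - e a - t • δ v a‖ ≤ t ^ 2 * (‖v‖ ^ 2 * ‖e a‖)

variable {e : A →ₗ[ℝ] K} {S : V → A →ₗ[ℝ] A} {δ : V → A →ₗ[ℝ] K}

/-- the group of isometries -/
theorem Pre.exU (H : Pre e S δ) : ∃ U : V → K →ₗᵢ[ℝ] K, (∀ x a, U x (e a) = e (S x a)) ∧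
    (∀ X, U 0 X = X) ∧ ∀ x y X, U (x + y) X = U x (U y X) := by
  have b : ∀ x, ∀ a, ‖(e.comp (S x)) a‖ ≤ 1 * ‖e a‖ := fun x a => by
    rw [one_mul]; exact (H.norm x a).le
  obtain ⟨W, hW⟩ : ∃ W : V → K →L[ℝ] K, ∀ x a, W x (e a) = e (S x a) :=
    ⟨fun x => (e.comp (S x)).extendOfNorm e, fun x a =>
      LinearMap.extendOfNorm_eq H.dense ⟨1, b x⟩ a⟩
  have hn : ∀ x X, ‖W x X‖ = ‖X‖ := by
    intro x X
    refine H.dense.induction_on (p := fun X => ‖W x X‖ = ‖X‖) X ?_ fun a => ?_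
    · exact isClosed_eq (W x).continuous.norm continuous_norm
    · rw [hW, H.norm]
  refine ⟨fun x => ⟨(W x).toLinearMap, hn x⟩, hW, fun X => ?_, fun x y X => ?_⟩
  · refine H.dense.induction_on (p := fun X => W 0 X = X) X ?_ fun a => ?_
    · exact isClosed_eq (W 0).continuous continuous_id
    · rw [hW, H.zero]
  · refine H.dense.induction_on (p := fun X => W (x + y) X = W x (W y X)) X ?_ fun a => ?_
    · exact isClosed_eq (W _).continuous ((W x).continuous.comp (W y).continuous)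
    · rw [hW, H.add, hW, hW]

/-- the generators -/
theorem Pre.exD (H : Pre e S δ) {U : V → K →ₗᵢ[ℝ] K} (hU : ∀ x a, U x (e a) = e (S x a)) :
    ∃ D : V → K → K, ∀ v X, HasDerivAt (fun t : ℝ => U (t • v) X) (D v X) 0 := by
  have b : ∀ v, ∀ a, ‖(δ v) a‖ ≤ ‖v‖ * ‖e a‖ := H.bd
  obtain ⟨D, hD⟩ : ∃ D : V → K →L[ℝ] K, ∀ v a, D v (e a) = δ v a :=
    ⟨fun v => (δ v).extendOfNorm e, fun v a => LinearMap.extendOfNorm_eq H.dense ⟨_, b v⟩ a⟩
  refine ⟨fun v => D v, fun v X => ?_⟩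
  have q : ∀ (t : ℝ), ‖U (t • v) X - X - t • D v X‖ ≤ t ^ 2 * (‖v‖ ^ 2 * ‖X‖) := by
    intro t
    refine H.dense.induction_on (p := fun X => ‖U (t • v) X - X - t • D v X‖ ≤
      t ^ 2 * (‖v‖ ^ 2 * ‖X‖)) X ?_ fun a => ?_
    · refine isClosed_le ?_ (by fun_prop)
      exact ((((U (t • v)).continuous).sub continuous_id).sub
        (((D v).continuous).const_smul t)).norm
    · rw [hU, hD]
      exact H.quad v t a
  have q0 : U ((0 : ℝ) • v) X = X := by
    have h0 := q 0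
    have e0 : (0 : ℝ) ^ 2 * (‖v‖ ^ 2 * ‖X‖) = 0 := by ring
    rw [e0] at h0
    have h1 := norm_le_zero_iff.1 h0
    rw [zero_smul ℝ (D v X), sub_zero] at h1
    exact sub_eq_zero.1 h1
  rw [hasDerivAt_iff_isLittleO_nhds_zero]
  have h1 : (fun t : ℝ => U ((0 + t) • v) X - U ((0 : ℝ) • v) X - t • D v X) =O[𝓝 0]
      fun t : ℝ => ‖t‖ ^ 2 := by
    refine Asymptotics.IsBigO.of_bound (‖v‖ ^ 2 * ‖X‖) (Eventually.of_forall fun t => ?_)
    rw [Real.norm_of_nonneg (sq_nonneg _), zero_add, q0, Real.norm_eq_abs, sq_abs, mul_comm]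
    exact q t
  exact h1.trans_isLittleO (Asymptotics.isLittleO_norm_pow_id one_lt_two)

end

end Pool.Agent.KS6_61.IS
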