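import Pool.Graph.R_pool_sql_team_seeded_64922ed1.X127.SW.GC2
import Pool.Graph.R_pool_sql_team_seeded_64922ed1.X127.SW.L2
import Pool.Graph.R_pool_sql_team_seeded_64922ed1.X127.SW.Red

/-!
# Second moments of the linear observables of a stationary wave
-/

set_option autoImplicit false
set_option linter.unusedSectionVars false
open MeasureTheory Filter Topology ProbabilityTheory
open scoped ENNReal NNReal ContDiff

namespace Pool.Agent.KS6_61.IS

noncomputable section

open Pool.Agent.X127.SW Pool.Agent.Y139.SW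

variable {d : ℕ} {Ω : Type*} [MeasurableSpace Ω] {P : Measure Ω} [IsProbabilityMeasure P]

/-- stationary waves -/
structure WV (P : Measure Ω) (F : Ω → E d → ℝ) : Prop where
  m : ∀ y, Measurable fun s => F s y
  s : ∀ s, ContDiff ℝ ∞ (F s)
  e : ∀ s y, Lap (F s) y + F s y = 0
  st : ∀ x : E d, P.map (fun s y => F s (y + x)) = P.map (fun s y => F s y)
  l2 : Integrable (fun s => F s 0 ^ 2) P

/-- finite linear combination of values -/
def sm (a : E d →₀ ℝ) (f : E d → ℝ) : ℝ := a.sum fun y r => r * f y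

lemma sm_fin (a : E d →₀ ℝ) : ∃ (n : ℕ) (c : Fin n → ℝ) (x : Fin n → E d),
    ∀ f : E d → ℝ, sm a f = ∑ i, c i * f (x i) := by
  refine ⟨a.support.card, fun k => a (a.support.equivFin.symm k).1,
    fun k => (a.support.equivFin.symm k).1, fun f => ?_⟩
  unfold sm Finsupp.sum
  rw [← Finset.sum_coe_sort, ← Equiv.sum_comp a.support.equivFin.symm]

lemma Dv_comb {n : ℕ} (c : Fin n → ℝ) (x : Fin n → E d) {f : E d → ℝ} (hf : ContDiff ℝ ∞ f)
    (v y : E d) : Dv v (fun y => ∑ i, c i * f (y + x i)) y = ∑ i, c i * Dv v f (y + x i) := by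
  rw [dv_eq]
  simp only [D_comb c x hf, dv_eq, Finset.mul_sum]
  rw [Finset.sum_comm]
  refine Finset.sum_congr rfl fun i _ => Finset.sum_congr rfl fun j _ => ?_
  ring

/-- the second moments -/
theorem facts {F : Ω → E d → ℝ} (H : WV P F) (a : E d →₀ ℝ) :
    (∀ z, MemLp (fun s => sm a (fun y => F s (y + z))) 2 P) ∧
    (∀ z, ∫ s, sm a (fun y => F s (y + z)) ^ 2 ∂P = ∫ s, sm a (F s) ^ 2 ∂P) ∧
    (∀ v, MemLp (fun s => sm a (Dv v (F s))) 2 P) ∧
    (∀ v, ∫ s, sm a (Dv v (F s)) ^ 2 ∂P ≤ ‖v‖ ^ 2 * ∫ s, sm a (F s) ^ 2 ∂P) ∧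
    (∀ v, ∫ s, (sm a (fun y => F s (y + v)) - sm a (F s) - sm a (Dv v (F s))) ^ 2 ∂P ≤
      ‖v‖ ^ 4 * ∫ s, sm a (F s) ^ 2 ∂P) := by
  obtain ⟨n, c, x, hs⟩ := sm_fin a
  obtain ⟨Ψ, mΨ, v1, hQ, hτ, W⟩ := red (P := P) H.m H.s H.e H.st H.l2
  have Wc := Pool.Agent.X127.SW.comb hτ W c x
  obtain ⟨G, hG⟩ : ∃ G : Sp d → E d → ℝ, G = fun (f : Sp d) (y : E d) => ∑ i, c i * f.1 (y + x i) :=
    ⟨_, rfl⟩
  rw [← hG] at Wc
  have g1 : ∀ z s, G (Ψ s) z = sm a (fun y => F s (y + z)) := by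
    intro z s
    rw [hs, hG]
    simp only [v1]
    exact Finset.sum_congr rfl fun i _ => by rw [add_comm]
  have g0 : ∀ s, G (Ψ s) 0 = sm a (F s) := by
    intro s
    rw [g1]
    simp only [add_zero]
  have gd : ∀ v s, Dv v (G (Ψ s)) 0 = sm a (Dv v (F s)) := by
    intro v s
    have : G (Ψ s) = fun y => ∑ i, c i * F s (y + x i) := by
      rw [hG]
      simp only [v1]
    rw [this, Dv_comb c x (H.s s), hs]
    simp only [zero_add]
  have tr : ∀ g : Sp d → ℝ, Measurable g → ∫ f, g f ∂(P.map Ψ) = ∫ s, g (Ψ s) ∂P :=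
    fun g mg => integral_map mΨ.aemeasurable mg.aestronglyMeasurable
  have trl : ∀ g : Sp d → ℝ, Measurable g → Integrable (fun f => g f ^ 2) (P.map Ψ) →
      MemLp (fun s => g (Ψ s)) 2 P := by
    intro g mg ig
    have mg2 : AEStronglyMeasurable (fun s => g (Ψ s)) P := (mg.comp mΨ).aestronglyMeasurable
    rw [memLp_two_iff_integrable_sq mg2]
    exact (integrable_map_measure (mg.pow_const 2).aestronglyMeasurable mΨ.aemeasurable).1 ig
  have mG : ∀ z, Measurable fun f => G f z := fun z => Wc.sf.meas z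
  have mD : ∀ v, Measurable fun f => Dv v (G f) 0 := fun v => (wdv hτ Wc v).sf.meas 0
  have e0 : ∫ f, G f 0 ^ 2 ∂(P.map Ψ) = ∫ s, sm a (F s) ^ 2 ∂P := by
    rw [tr (fun f => G f 0 ^ 2) ((mG 0).pow_const 2)]
    simp only [g0]
  refine ⟨fun z => ?_, fun z => ?_, fun v => ?_, fun v => ?_, fun v => ?_⟩
  · have := trl (fun f => G f z) (mG z) (sqi hτ Wc z)
    simpa only [g1] using this
  · have h1 := sqe hτ Wc z
    rw [e0, tr (fun f => G f z ^ 2) ((mG z).pow_const 2)] at h1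
    simpa only [g1] using h1
  · have := trl (fun f => Dv v (G f) 0) (mD v) (wdv hτ Wc v).l2
    simpa only [gd] using this
  · have h1 := edv hτ Wc v
    rw [e0, tr (fun f => Dv v (G f) 0 ^ 2) ((mD v).pow_const 2)] at h1
    simpa only [gd] using h1
  · have h1 := (lemB hτ Wc 0 v).2
    rw [e0, tr (fun f => (G f (0 + v) - G f 0 - Dv v (G f) 0) ^ 2)
      ((((mG _).sub (mG 0)).sub (mD v)).pow_const 2)] at h1
    simp only [g1, gd, zero_add] at h1
    simpa only [add_zero] using h1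

/-- the laws of the observables are invariant -/
theorem law_inv {F : Ω → E d → ℝ} (H : WV P F) (a : E d →₀ ℝ) (z : E d) {g : ℝ → ℂ}
    (mg : Measurable g) : ∫ s, g (sm a (fun y => F s (y + z))) ∂P = ∫ s, g (sm a (F s)) ∂P := by
  obtain ⟨n, c, x, hs⟩ := sm_fin a
  have m : Measurable fun f : E d → ℝ => g (∑ i, c i * f (x i)) :=
    mg.comp (Finset.measurable_sum _ fun i _ => measurable_const.mul (measurable_pi_apply _))
  have m1 : Measurable fun s y => F s (y + z) := measurable_pi_iff.2 fun y => H.m _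
  have m2 : Measurable fun s y => F s y := measurable_pi_iff.2 fun y => H.m _
  have h1 := integral_map (μ := P) m1.aemeasurable (f := fun f : E d → ℝ => g (∑ i, c i * f (x i)))
    m.aestronglyMeasurable
  have h2 := integral_map (μ := P) m2.aemeasurable (f := fun f : E d → ℝ => g (∑ i, c i * f (x i)))
    m.aestronglyMeasurable
  rw [H.st z] at h1
  simp only [hs]
  rw [← h1, h2]

end

end Pool.Agent.KS6_61.IS
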