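import Pool.Agent.KS6_61.IS.Phi
import Pool.Agent.KS6_61.IS.Ext
import Pool.Agent.KS6_61.IS.Fac

/-!
# The space of linear observables of a stationary wave
-/

set_option autoImplicit false
set_option linter.unusedSectionVars false
open MeasureTheory Filter Topology ProbabilityTheory
open scoped ENNReal NNReal

namespace Pool.Agent.KS6_61.IS

noncomputable section

open Pool.Agent.X127.SW Pool.Agent.Y139.SW

variable {d : ℕ} {Ω : Type*} [MeasurableSpace Ω] {P : Measure Ω} [IsProbabilityMeasure P]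

/-- the closed linear span of the values of `F` in `L²` -/
def obs (P : Measure Ω) [IsProbabilityMeasure P] (F : Ω → E d → ℝ) : Submodule ℝ (Lp ℝ 2 P) :=
  (Submodule.span ℝ {X : Lp ℝ 2 P | ∃ y, (X : Ω → ℝ) =ᵐ[P] fun ω => F ω y}).topologicalClosure

/-! ### linear combinations of square integrable functions -/

/-- `a ↦ ∑ a(y) g(y)` -/
def lc {g : E d → Ω → ℝ} (hg : ∀ y, MemLp (g y) 2 P) : (E d →₀ ℝ) →ₗ[ℝ] Lp ℝ 2 P :=
  Finsupp.linearCombination ℝ fun y => (hg y).toLp (g y)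

lemma lc_ae {g : E d → Ω → ℝ} (hg : ∀ y, MemLp (g y) 2 P) (a : E d →₀ ℝ) :
    (lc hg a : Ω → ℝ) =ᵐ[P] fun ω => sm a fun y => g y ω := by
  unfold lc sm
  induction a using Finsupp.induction_linear with
  | zero =>
    rw [map_zero]
    filter_upwards [Lp.coeFn_zero ℝ 2 P] with ω hω
    rw [hω]
    simp
  | add a b ha hb =>
    rw [map_add]
    filter_upwards [ha, hb, Lp.coeFn_add (Finsupp.linearCombination ℝ
      (fun y => (hg y).toLp (g y)) a) (Finsupp.linearCombination ℝ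
      (fun y => (hg y).toLp (g y)) b)] with ω h1 h2 h3
    rw [h3, Pi.add_apply, h1, h2, Finsupp.sum_add_index' (fun p => zero_mul _)
      fun p c c' => add_mul _ _ _]
  | single y r =>
    rw [Finsupp.linearCombination_single]
    filter_upwards [Lp.coeFn_smul r ((hg y).toLp (g y)), (hg y).coeFn_toLp] with ω h1 h2
    rw [h1, Pi.smul_apply, h2, Finsupp.sum_single_index (zero_mul _), smul_eq_mul]

lemma norm_lc {g : E d → Ω → ℝ} (hg : ∀ y, MemLp (g y) 2 P) (a : E d →₀ ℝ) :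
    ‖lc hg a‖ ^ 2 = ∫ ω, (sm a fun y => g y ω) ^ 2 ∂P := by
  rw [← nsq]
  refine integral_congr_ae ?_
  filter_upwards [lc_ae hg a] with ω hω
  rw [hω]

variable {F : Ω → E d → ℝ}

lemma sm_single (y : E d) (f : E d → ℝ) : sm (Finsupp.single y 1) f = f y := by
  unfold sm
  rw [Finsupp.sum_single_index (zero_mul _), one_mul]

lemma WV.mem (H : WV P F) (y : E d) : MemLp (fun ω => F ω y) 2 P := by
  have := (facts H (Finsupp.single y 1)).1 0
  simpa only [sm_single, add_zero] using this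

lemma WV.memD (H : WV P F) (v y : E d) : MemLp (fun ω => Dv v (F ω) y) 2 P := by
  have := (facts H (Finsupp.single y 1)).2.2.1 v
  simpa only [sm_single] using this

/-- the value at `y` -/
def val (H : WV P F) (y : E d) : Lp ℝ 2 P := (H.mem y).toLp (fun ω => F ω y)

lemma obs_eq (H : WV P F) : obs P F = (Submodule.span ℝ (Set.range (val H))).topologicalClosure := by
  unfold obs
  congr 2
  ext X
  constructor
  · rintro ⟨y, hy⟩
    refine ⟨y, ?_⟩
    refine Lp.ext ?_
    exact ((H.mem y).coeFn_toLp).trans hy.symm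
  · rintro ⟨y, rfl⟩
    exact ⟨y, (H.mem y).coeFn_toLp⟩

lemma val_mem (H : WV P F) (y : E d) : val H y ∈ obs P F := by
  rw [obs_eq H]
  exact Submodule.le_topologicalClosure _ (Submodule.subset_span ⟨y, rfl⟩)

lemma obs_closed : IsClosed (obs P F : Set (Lp ℝ 2 P)) :=
  Submodule.isClosed_topologicalClosure _

/-- the shift of finitely supported functions -/
def shf (x : E d) : (E d →₀ ℝ) →ₗ[ℝ] (E d →₀ ℝ) := Finsupp.lmapDomain ℝ ℝ fun y => y + x

lemma sm_shf (x : E d) (a : E d →₀ ℝ) (f : E d → ℝ) : sm (shf x a) f = sm a fun y => f (y + x) := by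
  unfold sm shf
  rw [Finsupp.lmapDomain_apply, Finsupp.sum_mapDomain_index (fun p => zero_mul _)
    fun p c c' => add_mul _ _ _]

lemma shf_zero (a : E d →₀ ℝ) : shf 0 a = a := by
  unfold shf
  rw [Finsupp.lmapDomain_apply]
  have : (fun y : E d => y + 0) = id := by funext y; simp
  rw [this, Finsupp.mapDomain_id]

lemma shf_add (x y : E d) (a : E d →₀ ℝ) : shf (x + y) a = shf x (shf y a) := by
  unfold shf
  simp only [Finsupp.lmapDomain_apply]
  rw [← Finsupp.mapDomain_comp]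
  congr 1
  funext z
  show z + (x + y) = z + y + x
  abel

lemma lc_mem (H : WV P F) (a : E d →₀ ℝ) : lc H.mem a ∈ obs P F := by
  unfold lc
  rw [Finsupp.linearCombination_apply]
  exact Submodule.sum_mem _ fun y _ => Submodule.smul_mem _ _ (val_mem H y)

/-- the map onto a dense subspace -/
def em (H : WV P F) : (E d →₀ ℝ) →ₗ[ℝ] obs P F := (lc H.mem).codRestrict _ (lc_mem H)

lemma em_coe (H : WV P F) (a : E d →₀ ℝ) : ((em H a : obs P F) : Lp ℝ 2 P) = lc H.mem a := rfl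

lemma em_dense (H : WV P F) : DenseRange (em H) := by
  intro X
  rw [closure_subtype]
  have h1 : (Subtype.val '' Set.range (em H) : Set (Lp ℝ 2 P)) =
      (Submodule.span ℝ (Set.range (val H)) : Set (Lp ℝ 2 P)) := by
    rw [← Set.range_comp]
    ext Y
    constructor
    · rintro ⟨a, rfl⟩
      show lc H.mem a ∈ Submodule.span ℝ (Set.range (val H))
      unfold lc
      rw [Finsupp.linearCombination_apply]
      exact Submodule.sum_mem _ fun y _ => Submodule.smul_mem _ _ (Submodule.subset_span ⟨y, rfl⟩)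
    · intro hY
      obtain ⟨a, ha⟩ := (Finsupp.mem_span_range_iff_exists_finsupp).1 hY
      refine ⟨a, ?_⟩
      show lc H.mem a = Y
      unfold lc
      rw [Finsupp.linearCombination_apply, ← ha]
      rfl
  rw [h1, ← Submodule.topologicalClosure_coe, ← obs_eq H]
  exact X.2

lemma lc_shf (H : WV P F) (x : E d) (a : E d →₀ ℝ) :
    (lc H.mem (shf x a) : Ω → ℝ) =ᵐ[P] fun ω => sm a fun y => F ω (y + x) := by
  filter_upwards [lc_ae H.mem (shf x a)] with ω hω
  rw [hω, sm_shf]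

lemma norm_shf (H : WV P F) (x : E d) (a : E d →₀ ℝ) : ‖em H (shf x a)‖ = ‖em H a‖ := by
  rw [← sq_eq_sq₀ (norm_nonneg _) (norm_nonneg _)]
  show ‖lc H.mem (shf x a)‖ ^ 2 = ‖lc H.mem a‖ ^ 2
  rw [norm_lc, norm_lc]
  simp only [sm_shf]
  exact (facts H a).2.1 x

lemma dl_bound (H : WV P F) (v : E d) (a : E d →₀ ℝ) :
    ‖lc (H.memD v) a‖ ≤ ‖v‖ * ‖lc H.mem a‖ := by
  refine le_of_sq_le_sq ?_ (by positivity)
  rw [mul_pow, norm_lc, norm_lc]
  exact (facts H a).2.2.2.1 v

lemma Dv_smul (t : ℝ) (v : E d) (f : E d → ℝ) (y : E d) : Dv (t • v) f y = t * Dv v f y := by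
  unfold Dv
  rw [map_smul, smul_eq_mul]

lemma dl_quad (H : WV P F) (v : E d) (t : ℝ) (a : E d →₀ ℝ) :
    ‖lc H.mem (shf (t • v) a) - lc H.mem a - t • lc (H.memD v) a‖ ≤
      t ^ 2 * (‖v‖ ^ 2 * ‖lc H.mem a‖) := by
  refine le_of_sq_le_sq ?_ (by positivity)
  rw [← nsq]
  have h1 := (facts H a).2.2.2.2 (t • v)
  have h2 : (t ^ 2 * (‖v‖ ^ 2 * ‖lc H.mem a‖)) ^ 2 =
      ‖t • v‖ ^ 4 * ∫ s, sm a (F s) ^ 2 ∂P := by
    rw [← norm_lc H.mem a, norm_smul, Real.norm_eq_abs, mul_pow |t|]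
    have : |t| ^ 4 = (t ^ 2) ^ 2 := by
      rw [← sq_abs t]; ring
    rw [this]
    ring
  rw [h2]
  refine le_trans (le_of_eq (integral_congr_ae ?_)) h1
  filter_upwards [Lp.coeFn_sub (lc H.mem (shf (t • v) a) - lc H.mem a) (t • lc (H.memD v) a),
    Lp.coeFn_sub (lc H.mem (shf (t • v) a)) (lc H.mem a), Lp.coeFn_smul t (lc (H.memD v) a),
    lc_shf H (t • v) a, lc_ae H.mem a, lc_ae (H.memD v) a] with ω e1 e2 e3 e4 e5 e6
  rw [e1, Pi.sub_apply, e2, Pi.sub_apply, e3, Pi.smul_apply, e4, e5, e6]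
  have : (sm a fun y => Dv (t • v) (F ω) y) = t • sm a fun y => Dv v (F ω) y := by
    simp only [Dv_smul]
    unfold sm
    rw [smul_eq_mul, Finsupp.mul_sum]
    refine Finsupp.sum_congr fun y _ => ?_
    ring
  rw [← this]

lemma dl_mem (H : WV P F) (v : E d) (a : E d →₀ ℝ) : lc (H.memD v) a ∈ obs P F := by
  have hz : Tendsto (fun n : ℕ => (((n : ℝ) + 1)⁻¹)⁻¹ •
      (lc H.mem (shf ((((n : ℝ) + 1)⁻¹) • v) a) - lc H.mem a)) atTop (𝓝 (lc (H.memD v) a)) := by
    rw [tendsto_iff_norm_sub_tendsto_zero]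
    obtain ⟨C, hC⟩ : ∃ C, C = ‖v‖ ^ 2 * ‖lc H.mem a‖ := ⟨_, rfl⟩
    have h0 : Tendsto (fun n : ℕ => (((n : ℝ) + 1)⁻¹) * C) atTop (𝓝 0) := by
      have := tendsto_one_div_add_atTop_nhds_zero_nat (𝕜 := ℝ)
      simpa using this.mul_const C
    refine squeeze_zero (fun n => norm_nonneg _) (fun n => ?_) h0
    obtain ⟨t, ht⟩ : ∃ t : ℝ, t = ((n : ℝ) + 1)⁻¹ := ⟨_, rfl⟩
    have t0 : 0 < t := by rw [ht]; positivity
    rw [← ht]
    have e : t⁻¹ • (lc H.mem (shf (t • v) a) - lc H.mem a) - lc (H.memD v) a =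
        t⁻¹ • (lc H.mem (shf (t • v) a) - lc H.mem a - t • lc (H.memD v) a) := by
      rw [smul_sub t⁻¹ (lc H.mem (shf (t • v) a) - lc H.mem a) (t • lc (H.memD v) a), smul_smul,
        inv_mul_cancel₀ t0.ne', one_smul]
    rw [e, norm_smul, Real.norm_eq_abs, abs_of_pos (inv_pos.2 t0)]
    have h1 := dl_quad H v t a
    rw [← hC] at h1
    calc t⁻¹ * ‖lc H.mem (shf (t • v) a) - lc H.mem a - t • lc (H.memD v) a‖
        ≤ t⁻¹ * (t ^ 2 * C) := by gcongr
      _ = t * C := by field_simp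
  refine obs_closed.mem_of_tendsto hz (Eventually.of_forall fun n => ?_)
  exact Submodule.smul_mem _ _ (Submodule.sub_mem _ (lc_mem H _) (lc_mem H _))

/-- the derivative on the dense subspace -/
def dm (H : WV P F) (v : E d) : (E d →₀ ℝ) →ₗ[ℝ] obs P F :=
  (lc (H.memD v)).codRestrict _ (dl_mem H v)

theorem pre (H : WV P F) : Pre (em H) (shf (d := d)) (dm H) :=
  ⟨em_dense H, shf_zero, shf_add, norm_shf H, dl_bound H, dl_quad H⟩

instance : CompleteSpace (obs P F) := obs_closed.completeSpace_coe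

lemma obs_mean (H : WV P F) (h0 : ∫ ω, F ω 0 ∂P = 0) {X : Lp ℝ 2 P} (hX : X ∈ obs P F) :
    ∫ ω, X ω ∂P = 0 := by
  have h1 : ∀ y, ∫ ω, F ω y ∂P = 0 := by
    intro y
    have := law_inv H (Finsupp.single 0 1) y (g := fun x : ℝ => (x : ℂ)) Complex.measurable_ofReal
    simp only [sm_single, zero_add] at this
    rw [integral_complex_ofReal, integral_complex_ofReal, h0] at this
    exact_mod_cast this
  obtain ⟨L, hL⟩ : ∃ L : Lp ℝ 2 P →L[ℝ] ℝ, ∀ X, L X = ∫ ω, X ω ∂P := by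
    obtain ⟨o, ho⟩ : ∃ o : Lp ℝ 2 P, (o : Ω → ℝ) =ᵐ[P] fun _ => 1 :=
      ⟨(memLp_const (1 : ℝ)).toLp _, MemLp.coeFn_toLp _⟩
    refine ⟨innerSL ℝ o, fun X => ?_⟩
    rw [innerSL_apply_apply, inner_eq]
    refine integral_congr_ae ?_
    filter_upwards [ho] with ω hω
    rw [hω, one_mul]
  have h2 : (Submodule.span ℝ (Set.range (val H))).topologicalClosure ≤ LinearMap.ker L.toLinearMap := by
    refine Submodule.topologicalClosure_minimal _ ?_ ?_
    · rw [Submodule.span_le]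
      rintro _ ⟨y, rfl⟩
      show L (val H y) = 0
      rw [hL, ← h1 y]
      exact integral_congr_ae (H.mem y).coeFn_toLp
    · exact L.isClosed_ker
  rw [obs_eq H] at hX
  have := h2 hX
  rw [← hL]
  exact this

/-- **The group of translations on the observables.** -/
theorem flows (H : WV P F) (h0 : ∫ ω, F ω 0 ∂P = 0) :
    ∃ (φ : obs P F → ℂ) (φ' : obs P F → obs P F →L[ℝ] ℂ) (U : E d → obs P F →ₗᵢ[ℝ] obs P F)
      (D : E d → obs P F → obs P F),
      (∀ X, φ X = phi P (X : Lp ℝ 2 P)) ∧ CF φ φ' ∧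
      (∀ v, Flow φ (fun t : ℝ => U (t • v)) (D v)) ∧
      ∀ x y, U x ⟨val H y, val_mem H y⟩ = ⟨val H (y + x), val_mem H (y + x)⟩ := by
  obtain ⟨U, u1, u2, u3⟩ := (pre H).exU
  obtain ⟨D, hD⟩ := (pre H).exD u1
  have hc := CF_sub (obs P F) (fun h hh => obs_mean H h0 hh)
  refine ⟨fun X => phi P (X : Lp ℝ 2 P), _, U, D, fun X => rfl, hc, fun v => ⟨fun X => ?_,
    fun s t X => ?_, fun t X => ?_, hD v⟩, fun x y => ?_⟩
  · show U ((0 : ℝ) • v) X = X
    rw [zero_smul, u2]
  · show U ((s + t) • v) X = U (s • v) (U (t • v) X)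
    rw [add_smul, u3]
  · show phi P ((U (t • v) X : obs P F) : Lp ℝ 2 P) = phi P (X : Lp ℝ 2 P)
    have cφ : Continuous fun X : obs P F => phi P (X : Lp ℝ 2 P) :=
      continuous_iff_continuousAt.2 fun X => (hc.deriv X).continuousAt
    refine (em_dense H).induction_on (p := fun X => phi P ((U (t • v) X : obs P F) : Lp ℝ 2 P) =
      phi P (X : Lp ℝ 2 P)) X ?_ fun a => ?_
    · exact isClosed_eq (cφ.comp (U (t • v)).continuous) cφ
    · rw [u1, em_coe, em_coe]
      unfold phi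
      have m : Measurable fun x : ℝ => Complex.exp ((x : ℂ) * Complex.I) := by fun_prop
      have h1 := law_inv H a (t • v) m
      have h2 : ∫ ω, Complex.exp ((lc H.mem (shf (t • v) a) ω : ℂ) * Complex.I) ∂P =
          ∫ ω, Complex.exp (((sm a fun y => F ω (y + t • v) : ℝ) : ℂ) * Complex.I) ∂P := by
        refine integral_congr_ae ?_
        filter_upwards [lc_shf H (t • v) a] with ω hω
        rw [hω]
      have h3 : ∫ ω, Complex.exp ((lc H.mem a ω : ℂ) * Complex.I) ∂P =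
          ∫ ω, Complex.exp ((sm a (F ω) : ℂ) * Complex.I) ∂P := by
        refine integral_congr_ae ?_
        filter_upwards [lc_ae H.mem a] with ω hω
        rw [hω]
      rw [h2, h1, h3]
  · have e1 : ∀ y, (⟨val H y, val_mem H y⟩ : obs P F) = em H (Finsupp.single y 1) := by
      intro y
      apply Subtype.ext
      show val H y = lc H.mem (Finsupp.single y 1)
      unfold lc
      rw [Finsupp.linearCombination_single, one_smul]
      rfl
    rw [e1, e1, u1]
    congr 1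
    unfold shf
    rw [Finsupp.lmapDomain_apply, Finsupp.mapDomain_single]

end

end Pool.Agent.KS6_61.IS
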