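import Pool.Agent.KS6_61.IS.Abs

/-!
# The characteristic functional on `L²`
-/

set_option autoImplicit false
set_option linter.unusedSectionVars false
open MeasureTheory Filter Topology ProbabilityTheory
open scoped ENNReal NNReal

namespace Pool.Agent.KS6_61.IS

noncomputable section

variable {Ω : Type*} [MeasurableSpace Ω] {P : Measure Ω} [IsProbabilityMeasure P]

/-- `E exp(iX)` -/
def phi (P : Measure Ω) (X : Lp ℝ 2 P) : ℂ := ∫ ω, Complex.exp ((X ω : ℂ) * Complex.I) ∂P

lemma nsq (X : Lp ℝ 2 P) : ∫ ω, X ω ^ 2 ∂P = ‖X‖ ^ 2 := by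
  rw [← real_inner_self_eq_norm_sq, L2.inner_def]
  congr 1
  funext ω
  simp [sq]

lemma sqI (X : Lp ℝ 2 P) : Integrable (fun ω => X ω ^ 2) P := (Lp.memLp X).integrable_sq

lemma oneI (X : Lp ℝ 2 P) : Integrable (fun ω => X ω) P :=
  (Lp.memLp X).integrable (by norm_num)

lemma mulI (X Y : Lp ℝ 2 P) : Integrable (fun ω => X ω * Y ω) P :=
  (Lp.memLp X).integrable_mul (Lp.memLp Y)

lemma mX (X : Lp ℝ 2 P) : Measurable (fun ω => X ω) := (Lp.stronglyMeasurable X).measurable

lemma inner_eq (X Y : Lp ℝ 2 P) : (inner ℝ X Y : ℝ) = ∫ ω, X ω * Y ω ∂P := by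
  rw [L2.inner_def]
  congr 1
  funext ω
  simp [mul_comm]

lemma abs_le (X : Lp ℝ 2 P) : ∫ ω, |X ω| ∂P ≤ ‖X‖ := by
  obtain ⟨s, hs⟩ : ∃ s, s = ‖X‖ := ⟨_, rfl⟩
  have h0 : 0 ≤ s := by rw [hs]; exact norm_nonneg _
  have h1 := nsq X
  rw [← hs] at h1 ⊢
  have h2 : ∀ t : ℝ, 0 < t → ∫ ω, |X ω| ∂P ≤ (s ^ 2 / t + t) / 2 := by
    intro t ht
    have i1 : Integrable (fun ω => (X ω ^ 2 / t + t) / 2) P :=
      (((sqI X).div_const t).add (integrable_const _)).div_const 2
    refine (integral_mono (oneI X).abs i1 fun ω => ?_).trans (le_of_eq ?_)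
    · show |X ω| ≤ (X ω ^ 2 / t + t) / 2
      rw [le_div_iff₀ two_pos]
      have : X ω ^ 2 / t + t = (X ω ^ 2 + t ^ 2) / t := by field_simp
      rw [this, le_div_iff₀ ht, ← sq_abs (X ω)]
      nlinarith [sq_nonneg (|X ω| - t)]
    · rw [integral_div, integral_add ((sqI X).div_const t) (integrable_const _), integral_div, h1,
        integral_const]
      simp
  rcases h0.eq_or_lt with h | h
  · rw [← h] at h2 ⊢
    refine le_of_forall_pos_le_add fun ε hε => ?_
    have := h2 ε hε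
    simp at this
    linarith
  · have := h2 s h
    have e : (s ^ 2 / s + s) / 2 = s := by field_simp; ring
    rwa [e] at this

lemma nexp (x : ℝ) : ‖Complex.exp ((x : ℂ) * Complex.I)‖ = 1 := Complex.norm_exp_ofReal_mul_I x

lemma mexp (X : Lp ℝ 2 P) : Measurable fun ω => Complex.exp ((X ω : ℂ) * Complex.I) :=
  Complex.measurable_exp.comp ((Complex.measurable_ofReal.comp (mX X)).mul_const _)

lemma iexp (X : Lp ℝ 2 P) : Integrable (fun ω => Complex.exp ((X ω : ℂ) * Complex.I)) P := by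
  refine Integrable.mono' (integrable_const (1 : ℝ)) (mexp X).aestronglyMeasurable
    (ae_of_all _ fun ω => ?_)
  rw [nexp]

lemma ihexp (X h : Lp ℝ 2 P) :
    Integrable (fun ω => (h ω : ℂ) * (Complex.I * Complex.exp ((X ω : ℂ) * Complex.I))) P := by
  refine Integrable.mono' (oneI h).abs ?_ (ae_of_all _ fun ω => ?_)
  · exact ((Complex.measurable_ofReal.comp (mX h)).mul
      (measurable_const.mul (mexp X))).aestronglyMeasurable
  · rw [norm_mul, norm_mul, nexp]
    simp

/-- the derivative of `phi` -/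
def dphi (X : Lp ℝ 2 P) : Lp ℝ 2 P →L[ℝ] ℂ :=
  LinearMap.mkContinuous
    { toFun := fun h => ∫ ω, (h ω : ℂ) * (Complex.I * Complex.exp ((X ω : ℂ) * Complex.I)) ∂P
      map_add' := by
        intro a b
        rw [← integral_add (ihexp X a) (ihexp X b)]
        refine integral_congr_ae ?_
        filter_upwards [Lp.coeFn_add a b] with ω hω
        rw [hω]
        simp only [Pi.add_apply, Complex.ofReal_add]
        ring
      map_smul' := by
        intro c a
        rw [RingHom.id_apply, Complex.real_smul, ← integral_const_mul]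
        refine integral_congr_ae ?_
        filter_upwards [Lp.coeFn_smul c a] with ω hω
        rw [hω]
        simp only [Pi.smul_apply, smul_eq_mul, Complex.ofReal_mul]
        ring } 1 (by
    intro h
    rw [one_mul]
    refine (norm_integral_le_integral_norm _).trans ?_
    refine le_trans (le_of_eq ?_) (abs_le h)
    congr 1
    funext ω
    rw [norm_mul, norm_mul, nexp]
    simp)

lemma dphi_apply (X h : Lp ℝ 2 P) : dphi X h =
    ∫ ω, (h ω : ℂ) * (Complex.I * Complex.exp ((X ω : ℂ) * Complex.I)) ∂P := rfl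

lemma quad (t : ℝ) : ‖Complex.exp ((t : ℂ) * Complex.I) - 1 - (t : ℂ) * Complex.I‖ ≤ 3 * t ^ 2 := by
  have hn : ‖(t : ℂ) * Complex.I‖ = |t| := by simp
  rcases le_or_gt |t| 1 with h | h
  · have := Complex.norm_exp_sub_one_sub_id_le (x := (t : ℂ) * Complex.I) (by rw [hn]; exact h)
    rw [hn, sq_abs] at this
    nlinarith [sq_nonneg t]
  · have h1 : ‖Complex.exp ((t : ℂ) * Complex.I) - 1 - (t : ℂ) * Complex.I‖ ≤ 1 + 1 + |t| := by
      refine (norm_sub_le _ _).trans (add_le_add ((norm_sub_le _ _).trans ?_) hn.le)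
      rw [nexp, norm_one]
    have h2 : |t| ≤ t ^ 2 := by rw [← sq_abs]; nlinarith
    have h3 : (1 : ℝ) ≤ t ^ 2 := by linarith
    linarith

lemma phi_quad (X h : Lp ℝ 2 P) : ‖phi P (X + h) - phi P X - dphi X h‖ ≤ 3 * ‖h‖ ^ 2 := by
  have j1 : Integrable (fun ω => Complex.exp (((X + h : Lp ℝ 2 P) ω : ℂ) * Complex.I) -
      Complex.exp ((X ω : ℂ) * Complex.I)) P := (iexp _).sub (iexp _)
  rw [dphi_apply, phi, phi, ← integral_sub (iexp _) (iexp _),
    ← integral_sub j1 (ihexp X h), ← nsq, ← integral_const_mul]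
  refine (norm_integral_le_integral_norm _).trans ?_
  refine integral_mono_ae (j1.sub (ihexp X h)).norm ((sqI h).const_mul 3) ?_
  filter_upwards [Lp.coeFn_add X h] with ω hω
  show ‖Complex.exp (((X + h : Lp ℝ 2 P) ω : ℂ) * Complex.I) - Complex.exp ((X ω : ℂ) * Complex.I) -
    (h ω : ℂ) * (Complex.I * Complex.exp ((X ω : ℂ) * Complex.I))‖ ≤ 3 * h ω ^ 2
  rw [hω]
  simp only [Pi.add_apply, Complex.ofReal_add]
  have e : Complex.exp (((X ω : ℂ) + (h ω : ℂ)) * Complex.I) -
      Complex.exp ((X ω : ℂ) * Complex.I) -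
      (h ω : ℂ) * (Complex.I * Complex.exp ((X ω : ℂ) * Complex.I)) =
      Complex.exp ((X ω : ℂ) * Complex.I) * (Complex.exp ((h ω : ℂ) * Complex.I) - 1 -
        (h ω : ℂ) * Complex.I) := by
    rw [add_mul, Complex.exp_add]
    ring
  rw [e, norm_mul, nexp, one_mul]
  exact quad _

lemma phi_deriv (X : Lp ℝ 2 P) : HasFDerivAt (phi P) (dphi X) X := by
  rw [hasFDerivAt_iff_isLittleO_nhds_zero]
  have h1 : (fun h : Lp ℝ 2 P => phi P (X + h) - phi P X - dphi X h) =O[𝓝 0]
      fun h : Lp ℝ 2 P => ‖h‖ ^ 2 := by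
    refine Asymptotics.IsBigO.of_bound 3 (Eventually.of_forall fun h => ?_)
    rw [Real.norm_of_nonneg (sq_nonneg _)]
    exact phi_quad X h
  refine h1.trans_isLittleO ?_
  exact Asymptotics.isLittleO_norm_pow_id one_lt_two

lemma phi_zero : phi P 0 = 1 := by
  unfold phi
  have : ∫ ω, Complex.exp (((0 : Lp ℝ 2 P) ω : ℂ) * Complex.I) ∂P = ∫ _, (1 : ℂ) ∂P := by
    refine integral_congr_ae ?_
    filter_upwards [Lp.coeFn_zero ℝ 2 P] with ω hω
    rw [hω]
    simp
  rw [this]
  simp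

lemma phi_sec (X : Lp ℝ 2 P) {h : Lp ℝ 2 P} (h0 : ∫ ω, h ω ∂P = 0) :
    Tendsto (fun ε : ℝ => ((ε⁻¹ : ℝ) : ℂ) * dphi (ε • X) h) (𝓝[≠] 0)
      (𝓝 (-((inner ℝ X h : ℝ) : ℂ))) := by
  have e1 : -((inner ℝ X h : ℝ) : ℂ) = ∫ ω, (h ω : ℂ) * (Complex.I * ((X ω : ℂ) * Complex.I)) ∂P := by
    rw [inner_eq, ← integral_complex_ofReal, ← integral_neg]
    congr 1
    funext ω
    push_cast
    linear_combination (h ω : ℂ) * X ω * (-Complex.I_sq)
  have e2 : ∀ ε : ℝ, ((ε⁻¹ : ℝ) : ℂ) * dphi (ε • X) h = ∫ ω, (h ω : ℂ) * (Complex.I *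
      (((ε⁻¹ : ℝ) : ℂ) * (Complex.exp (((ε * X ω : ℝ) : ℂ) * Complex.I) - 1))) ∂P := by
    intro ε
    have z : ∫ ω, (h ω : ℂ) * Complex.I ∂P = 0 := by
      rw [integral_mul_const, integral_complex_ofReal, h0]
      simp
    have i0 : Integrable (fun ω => (h ω : ℂ) * Complex.I) P :=
      ((oneI h).ofReal).mul_const _
    have e3 : dphi (ε • X) h = ∫ ω, (h ω : ℂ) *
        (Complex.I * Complex.exp (((ε * X ω : ℝ) : ℂ) * Complex.I)) ∂P := by
      rw [dphi_apply]
      refine integral_congr_ae ?_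
      filter_upwards [Lp.coeFn_smul ε X] with ω hω
      rw [hω]
      simp only [Pi.smul_apply, smul_eq_mul]
    have i1 : Integrable (fun ω => (h ω : ℂ) *
        (Complex.I * Complex.exp (((ε * X ω : ℝ) : ℂ) * Complex.I))) P := by
      refine (ihexp (ε • X) h).congr ?_
      filter_upwards [Lp.coeFn_smul ε X] with ω hω
      rw [hω]
      simp only [Pi.smul_apply, smul_eq_mul]
    rw [e3, ← sub_zero (∫ ω, (h ω : ℂ) *
        (Complex.I * Complex.exp (((ε * X ω : ℝ) : ℂ) * Complex.I)) ∂P), ← z,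
      ← integral_sub i1 i0, ← integral_const_mul]
    congr 1
    funext ω
    ring
  rw [e1]
  refine Tendsto.congr (fun ε => (e2 ε).symm) ?_
  refine tendsto_integral_filter_of_dominated_convergence (fun ω => |h ω * X ω|) ?_ ?_
    (mulI h X).abs ?_
  · refine Eventually.of_forall fun ε => ?_
    refine ((Complex.measurable_ofReal.comp (mX h)).mul (measurable_const.mul
      (measurable_const.mul ((Complex.measurable_exp.comp ((Complex.measurable_ofReal.comp
        ((mX X).const_mul ε)).mul_const _)).sub_const _)))).aestronglyMeasurable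
  · filter_upwards [self_mem_nhdsWithin] with ε hε
    refine ae_of_all _ fun ω => ?_
    have hε' : ε ≠ 0 := hε
    have b1 : ‖Complex.exp (((ε * X ω : ℝ) : ℂ) * Complex.I) - 1‖ ≤ |ε * X ω| := by
      have := @Real.norm_exp_I_mul_ofReal_sub_one_le (ε * X ω)
      rwa [mul_comm Complex.I, Real.norm_eq_abs] at this
    rw [norm_mul, norm_mul, norm_mul, Complex.norm_I, one_mul, Complex.norm_real,
      Complex.norm_real, Real.norm_eq_abs, Real.norm_eq_abs, abs_mul, abs_inv]
    refine mul_le_mul_of_nonneg_left ?_ (abs_nonneg _)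
    have p : 0 < |ε| := abs_pos.2 hε'
    calc |ε|⁻¹ * ‖Complex.exp (((ε * X ω : ℝ) : ℂ) * Complex.I) - 1‖
        ≤ |ε|⁻¹ * |ε * X ω| := by gcongr
      _ = |X ω| := by rw [abs_mul]; field_simp
  · refine ae_of_all _ fun ω => ?_
    refine Tendsto.const_mul _ (Tendsto.const_mul _ ?_)
    have h1 : HasDerivAt (fun ε : ℝ => Complex.exp (((ε * X ω : ℝ) : ℂ) * Complex.I))
        ((X ω : ℂ) * Complex.I) 0 := by
      have h0 : HasDerivAt (fun s : ℝ => ((s * X ω : ℝ) : ℂ)) (X ω : ℂ) 0 := by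
        have := ((hasDerivAt_id (0 : ℝ)).mul_const (X ω)).ofReal_comp
        simpa using this
      have h2 := (h0.mul_const Complex.I).cexp
      simpa using h2
    have h3 := h1.tendsto_slope_zero
    simp only [zero_add, zero_mul, Complex.ofReal_zero, Complex.exp_zero] at h3
    refine h3.congr fun ε => ?_
    rw [Complex.real_smul]

/-- the characteristic functional of a closed space of centred variables -/
theorem CF_sub (K : Submodule ℝ (Lp ℝ 2 P)) (h0 : ∀ h ∈ K, ∫ ω, h ω ∂P = 0) :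
    CF (fun X : K => phi P (X : Lp ℝ 2 P)) (fun X : K => (dphi (X : Lp ℝ 2 P)).comp K.subtypeL) := by
  refine ⟨fun X => ?_, phi_zero, fun X h => ?_⟩
  · exact (phi_deriv (X : Lp ℝ 2 P)).comp X K.subtypeL.hasFDerivAt
  · exact phi_sec (X : Lp ℝ 2 P) (h0 h h.2)

/-- independence and the characteristic functional -/
theorem phi_indep {X Y : Lp ℝ 2 P} (h : IndepFun (X : Ω → ℝ) (Y : Ω → ℝ) P) :
    phi P (X + Y) = phi P X * phi P Y := by
  unfold phi
  have h1 : IndepFun (fun ω => Complex.exp ((X ω : ℂ) * Complex.I))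
      (fun ω => Complex.exp ((Y ω : ℂ) * Complex.I)) P :=
    h.comp (φ := fun x : ℝ => Complex.exp ((x : ℂ) * Complex.I))
      (ψ := fun x : ℝ => Complex.exp ((x : ℂ) * Complex.I)) (by fun_prop) (by fun_prop)
  rw [← h1.integral_fun_mul_eq_mul_integral (mexp X).aestronglyMeasurable
    (mexp Y).aestronglyMeasurable]
  refine integral_congr_ae ?_
  filter_upwards [Lp.coeFn_add X Y] with ω hω
  rw [hω]
  simp only [Pi.add_apply, Complex.ofReal_add]
  rw [add_mul, Complex.exp_add]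

end

end Pool.Agent.KS6_61.IS
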